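import Pool.Agent.Lib_MP_418a80_con.CStep
import Pool.Agent.Lib_MP_418a80_con.Star2

/-!
# MP_418a80_an, [TL]: torus layers in the descent (board note 2399 of helper90)

`N / N' = 𝕋^m`, given by a function `p : G → ℝ^m` of which only the characters `pch p (zv q)`,
`q ∈ ℤ^m`, on `N` are used. Definitions and elementary facts.
-/

set_option autoImplicit false
set_option linter.unusedVariables false
set_option linter.unusedSectionVars false

open Topology Filter MeasureTheory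
open scoped RealInnerProductSpace ComplexConjugate

namespace Pool.Agent.AbCoc

universe u v w z

/-- integer vectors -/
noncomputable def zv {m : ℕ} (q : Fin m → ℤ) : EuclideanSpace ℝ (Fin m) :=
  ∑ i, ((q i : ℤ) : ℝ) • EuclideanSpace.basisFun (Fin m) ℝ i

theorem zv_zero {m : ℕ} : zv (0 : Fin m → ℤ) = 0 := by
  unfold zv
  refine Finset.sum_eq_zero fun i _ => ?_
  rw [Pi.zero_apply, Int.cast_zero, zero_smul]

theorem zv_add {m : ℕ} (q q' : Fin m → ℤ) : zv (q + q') = zv q + zv q' := by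
  unfold zv
  rw [← Finset.sum_add_distrib]
  refine Finset.sum_congr rfl fun i _ => ?_
  rw [← add_smul, Pi.add_apply, Int.cast_add]

theorem zv_neg {m : ℕ} (q : Fin m → ℤ) : zv (-q) = -zv q := by
  unfold zv
  rw [← Finset.sum_neg_distrib]
  refine Finset.sum_congr rfl fun i _ => ?_
  rw [← neg_smul, Pi.neg_apply, Int.cast_neg]

/-- the labels of the cells with mesh `2π/M` are integer vectors -/
theorem lamV_eq_zv {m M : ℕ} [NeZero M] (c : Fin m → ZMod M) :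
    lamV (EuclideanSpace.basisFun (Fin m) ℝ) M (2 * Real.pi / M) c
      = zv (fun i => -(c i).valMinAbs) := by
  have hM : (M : ℝ) ≠ 0 := Nat.cast_ne_zero.2 (NeZero.ne M)
  have hpi := Real.pi_ne_zero
  unfold lamV zv
  refine Finset.sum_congr rfl fun i _ => ?_
  congr 1
  unfold boxTh
  push_cast
  field_simp

theorem lamZ_eq_zv {m M : ℕ} [NeZero M] (n : Fin m → ℤ) :
    lamZ (EuclideanSpace.basisFun (Fin m) ℝ) M (2 * Real.pi / M) n = zv (-n) := by
  have hM : (M : ℝ) ≠ 0 := Nat.cast_ne_zero.2 (NeZero.ne M)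
  have hpi := Real.pi_ne_zero
  unfold lamZ zv
  refine Finset.sum_congr rfl fun i _ => ?_
  congr 1
  rw [Pi.neg_apply]
  push_cast
  field_simp

section
variable {G : Type w} [Group G] [TopologicalSpace G] {m : ℕ}

/-- `p` induces a continuous homomorphism of `N` onto `𝕋^m = ℝ^m / 2πℤ^m` with kernel `N'` -/
structure IsTLayer (N N' : Subgroup G) (p : G → EuclideanSpace ℝ (Fin m)) : Prop where
  cont : ∀ q : Fin m → ℤ, ContinuousOn (pch p (zv q)) N
  mul : ∀ q : Fin m → ℤ, ∀ s ∈ N, ∀ t ∈ N,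
    pch p (zv q) (s * t) = pch p (zv q) s * pch p (zv q) t
  surj : ∀ v : EuclideanSpace ℝ (Fin m), ∃ s ∈ N, ∀ q : Fin m → ℤ, pch p (zv q) s = ch ⟪zv q, v⟫
  ker : ∀ s ∈ N, ((∀ q : Fin m → ℤ, pch p (zv q) s = 1) ↔ s ∈ N')
  le : N' ≤ N

namespace IsTLayer

variable {N N' : Subgroup G} {p : G → EuclideanSpace ℝ (Fin m)}

theorem pch_ne (q : EuclideanSpace ℝ (Fin m)) (s : G) : pch p q s ≠ 0 := by
  intro h
  have := norm_pch p q s
  rw [h, norm_zero] at this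
  exact zero_ne_one this

theorem one (hp : IsTLayer N N' p) (q : Fin m → ℤ) : pch p (zv q) 1 = 1 := by
  have h := hp.mul q 1 N.one_mem 1 N.one_mem
  rw [mul_one] at h
  exact (mul_right_cancel₀ (pch_ne (p := p) (zv q) 1) (by rw [one_mul]; exact h)).symm

theorem inv (hp : IsTLayer N N' p) (q : Fin m → ℤ) {s : G} (hs : s ∈ N) :
    pch p (zv q) s⁻¹ = conj (pch p (zv q) s) := by
  have h := hp.mul q s⁻¹ (N.inv_mem hs) s hs
  rw [inv_mul_cancel, hp.one] at h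
  have h2 : conj (pch p (zv q) s) * pch p (zv q) s = 1 := by
    rw [← Complex.normSq_eq_conj_mul_self, Complex.normSq_eq_norm_sq, norm_pch]
    norm_num
  exact mul_right_cancel₀ (pch_ne (p := p) (zv q) s) (h.symm.trans h2.symm)

theorem inv_mul (hp : IsTLayer N N' p) (q : Fin m → ℤ) {s t : G} (hs : s ∈ N) (ht : t ∈ N)
    (h : pch p (zv q) s = pch p (zv q) t) : pch p (zv q) (s⁻¹ * t) = 1 := by
  rw [hp.mul q _ (N.inv_mem hs) _ ht, hp.inv q hs, ← h]
  rw [← Complex.normSq_eq_conj_mul_self, Complex.normSq_eq_norm_sq, norm_pch]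
  norm_num

theorem conj_eq (hp : IsTLayer N N' p) (q : Fin m → ℤ) {n s : G} (hn : n ∈ N) (hs : s ∈ N) :
    pch p (zv q) (n * s * n⁻¹) = pch p (zv q) s := by
  have h1 := hp.mul q n⁻¹ (N.inv_mem hn) n hn
  rw [inv_mul_cancel, hp.one] at h1
  rw [hp.mul q _ (N.mul_mem hn hs) _ (N.inv_mem hn), hp.mul q _ hn _ hs]
  calc pch p (zv q) n * pch p (zv q) s * pch p (zv q) n⁻¹
      = (pch p (zv q) n⁻¹ * pch p (zv q) n) * pch p (zv q) s := by ring
    _ = pch p (zv q) s := by rw [← h1, one_mul]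

theorem pow (hp : IsTLayer N N' p) (q : Fin m → ℤ) {s : G} (hs : s ∈ N) (n : ℕ) :
    pch p (zv q) (s ^ n) = pch p (zv q) s ^ n := by
  induction n with
  | zero => rw [pow_zero, pow_zero, hp.one]
  | succ n ih => rw [pow_succ, pow_succ, hp.mul q _ (N.pow_mem hs n) _ hs, ih]

theorem nor (hp : IsTLayer N N' p) {n s : G} (hn : n ∈ N) (hs : s ∈ N') : n * s * n⁻¹ ∈ N' := by
  refine (hp.ker _ (N.mul_mem (N.mul_mem hn (hp.le hs)) (N.inv_mem hn))).1 fun q => ?_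
  rw [hp.conj_eq q hn (hp.le hs)]
  exact (hp.ker s (hp.le hs)).2 hs q

theorem isClosed_ker (hp : IsTLayer N N' p) (hN : IsClosed (N : Set G)) :
    IsClosed (N' : Set G) := by
  have e : (N' : Set G) = ⋂ q : Fin m → ℤ, ((N : Set G) ∩ pch p (zv q) ⁻¹' {1}) := by
    ext s
    rw [Set.mem_iInter]
    constructor
    · intro hs q
      exact ⟨hp.le hs, (hp.ker s (hp.le hs)).2 hs q⟩
    · intro h
      have hsN : s ∈ N := (h 0).1
      exact (hp.ker s hsN).1 fun q => (h q).2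
  rw [e]
  exact isClosed_iInter fun q =>
    (hp.cont q).preimage_isClosed_of_isClosed hN (isClosed_singleton (x := (1 : ℂ)))

end IsTLayer

/-- a subgroup of finite index maps onto the torus -/
theorem FiNor.tlayer {M N N' : Subgroup G} {p : G → EuclideanSpace ℝ (Fin m)} (h : FiNor M N)
    (hp : IsTLayer N N' p) : IsTLayer M (M ⊓ N') p where
  cont q := (hp.cont q).mono h.le
  mul q s hs t ht := hp.mul q s (h.le hs) t (h.le ht)
  surj v := by
    obtain ⟨s, hs, hsq⟩ := hp.surj (((M.relIndex N : ℕ) : ℝ)⁻¹ • v)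
    refine ⟨s ^ M.relIndex N, h.pow_mem hs, fun q => ?_⟩
    rw [hp.pow q hs, hsq, ← onchar_nat_mul, real_inner_smul_right, ← mul_assoc,
      mul_inv_cancel₀ (Nat.cast_ne_zero.2 h.fin), one_mul]
  ker s hs := by
    rw [hp.ker s (h.le hs), Subgroup.mem_inf]
    exact ⟨fun h1 => ⟨hs, h1⟩, fun h1 => h1.2⟩
  le := inf_le_left

end

section
variable {A : Type u} [CStarAlgebra A] {K : Type v} [NormedAddCommGroup K]
  [InnerProductSpace ℂ K] [CompleteSpace K]
  {G : Type w} [Group G] [TopologicalSpace G] {T : TrAlg A K} (S : TrAct G T) {m : ℕ}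

/-- near-`(N, q)`-eigen contractions, `q ∈ ℤ^m` -/
def TrAct.EigZ (N : Subgroup G) (p : G → EuclideanSpace ℝ (Fin m)) : Prop :=
  ∀ (q : Fin m → ℤ) (D : Set G), IsCompact D → D ⊆ (N : Set G) → ∀ κ : ℝ, 0 < κ →
    ∀ (J : Type) [Fintype J] (a : J → A),
    ∃ x, S.NE (pch p (zv q)) D κ x ∧ ∀ j, ‖T.ι (a j)‖ ^ 2 ≤ 8 * ‖T.ι (x * a j)‖ ^ 2

/-- `β` is almost the scalar `c q` on late near-`(N, q)`-eigen contractions, `q ∈ ℤ^m` -/
def TrAct.ScalZ (N : Subgroup G) (p : G → EuclideanSpace ℝ (Fin m)) (β : A → A)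
    (c : (Fin m → ℤ) → ℂ) : Prop :=
  ∀ ε : ℝ, 0 < ε → ∃ (D : Set G) (κ : ℝ), IsCompact D ∧ D ⊆ (N : Set G) ∧ 0 < κ ∧
    ∀ (q : Fin m → ℤ) (x : A), S.NE (pch p (zv q)) D κ x → ‖T.ι (β x - c q • x)‖ ≤ ε

/-- `β` is covariant on `P` and on `g⁻¹ P g` -/
structure TrAct.Cov (P : Subgroup G) (g : G) (β : A → A) : Prop where
  iso : ∀ a, ‖T.ι (β a)‖ = ‖T.ι a‖
  cov : ∀ s ∈ P, ∀ a, β (S.α s a) = S.α (g * s * g⁻¹) (β a)
  covi : ∀ s ∈ P, ∀ a, β (S.α (g⁻¹ * s * g) a) = S.α s (β a)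

/-- `P`-fixed elements which commute with late near-`N`-invariant unitaries are scalars -/
def TrAct.ScP (P N : Subgroup G) : Prop :=
  ∀ d : A, (∀ s ∈ P, S.α s d = d) → S.Intw (N : Set G) 1 d → d = T.τ d • (1 : A)

/-- the conclusion of `mem_of_ntower` -/
def TrAct.MemT (N : Subgroup G) : Prop :=
  ∀ (w : A) (h1 : star w * w = 1) (h2 : w * star w = 1), (∀ s ∈ N, S.α s w = w) → ∀ g : G,
    (∀ s, s ∈ N ↔ g * s * g⁻¹ ∈ N) → S.FixU N (S.bw h1 h2 g) → g ∈ N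

variable {S}

theorem TrAct.EigZ.left {N : Subgroup G} {p : G → EuclideanSpace ℝ (Fin m)} (h : S.EigZ N p)
    (q : Fin m → ℤ) (D : Set G) (hD : IsCompact D)
    (hDN : D ⊆ (N : Set G)) (κ : ℝ) (hκ : 0 < κ) (J : Type) [Fintype J] (a : J → A) :
    ∃ x, S.NE (pch p (zv q)) D κ x ∧ ∀ j, ‖T.ι (a j)‖ ^ 2 ≤ 8 * ‖T.ι (a j * x)‖ ^ 2 := by
  obtain ⟨x, hx, hxa⟩ := h (-q) D hD hDN κ hκ J fun j => Star.star (a j)
  refine ⟨Star.star x, ?_, fun j => ?_⟩
  · have := hx.pstar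
    rwa [zv_neg, neg_neg] at this
  · have h1 := hxa j
    rw [T.norm_star, ← T.norm_star (x * Star.star (a j)), star_mul, star_star] at h1
    exact h1

theorem TrAct.EigZ.exists_one {N : Subgroup G} {p : G → EuclideanSpace ℝ (Fin m)}
    (h : S.EigZ N p) (q : Fin m → ℤ) (D : Set G) (hD : IsCompact D)
    (hDN : D ⊆ (N : Set G)) (κ : ℝ) (hκ : 0 < κ) :
    ∃ x, S.NE (pch p (zv q)) D κ x ∧ 1 ≤ 8 * ‖T.ι x‖ ^ 2 := by
  obtain ⟨x, hx, hxa⟩ := h q D hD hDN κ hκ Unit fun _ => 1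
  have h1 := hxa ()
  rw [mul_one, T.norm_one, one_pow] at h1
  exact ⟨x, hx, h1⟩

end

end Pool.Agent.AbCoc
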