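import Pool.Agent.Lib_MP_418a80_tl.TDefs
import Pool.Agent.Lib_MP_418a80_con.CClass

/-!
# [TL]: near-`(N, q)`-eigenelements, `q ∈ ℤ^m`, from KEY, for a torus layer
-/

set_option autoImplicit false
set_option linter.unusedVariables false
set_option linter.unusedSectionVars false

open Topology Filter MeasureTheory
open scoped RealInnerProductSpace ComplexConjugate

namespace Pool.Agent.AbCoc

universe u v w z

section
variable {A : Type u} [CStarAlgebra A] [PartialOrder A] [StarOrderedRing A]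
  {K : Type v} [NormedAddCommGroup K] [InnerProductSpace ℂ K] [CompleteSpace K]
  {G : Type w} [Group G] [TopologicalSpace G] {T : TrAlg A K} {m : ℕ}

/-- the character of `N` with label `q` -/
noncomputable def layCharZ {N N' : Subgroup G} {p : G → EuclideanSpace ℝ (Fin m)}
    (hp : IsTLayer N N' p) (q : Fin m → ℤ) : N →* Circle where
  toFun s := Circle.exp ⟪zv q, p s⟫
  map_one' := by
    apply Circle.ext
    rw [Circle.coe_exp, Circle.coe_one]
    exact hp.one q
  map_mul' s t := by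
    apply Circle.ext
    rw [Circle.coe_mul, Circle.coe_exp, Circle.coe_exp, Circle.coe_exp]
    exact hp.mul q s s.2 t t.2

theorem layCharZ_coe {N N' : Subgroup G} {p : G → EuclideanSpace ℝ (Fin m)}
    (hp : IsTLayer N N' p) (q : Fin m → ℤ) (s : N) : (layCharZ hp q s : ℂ) = pch p (zv q) s := by
  change ((Circle.exp ⟪zv q, p s⟫ : Circle) : ℂ) = ch ⟪zv q, p s⟫
  rw [Circle.coe_exp]
  rfl

theorem layCharZ_cont {N N' : Subgroup G} {p : G → EuclideanSpace ℝ (Fin m)}
    (hp : IsTLayer N N' p) (q : Fin m → ℤ) : Continuous (layCharZ hp q) := by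
  have hemb : IsInducing (fun c : Circle => (c : ℂ)) := ⟨rfl⟩
  rw [hemb.continuous_iff]
  have h1 : Continuous fun s : N => pch p (zv q) s :=
    continuousOn_iff_continuous_domRestrict.1 (hp.cont q)
  exact h1.congr fun s => (layCharZ_coe hp q s).symm

/-- **eigenelements** from KEY of the twisted matrices of `N` -/
theorem TrAct.eigZ_of_key (S : TrAct G T) {N N' : Subgroup G}
    {p : G → EuclideanSpace ℝ (Fin m)} (hp : IsTLayer N N' p)
    (hkey : ∀ (χ : N →* Circle) (hχ : Continuous χ),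
      ((S.sub N).twist 2 (tw2 χ) (tw2_cont hχ)).Key) : S.EigZ N p := by
  intro q D hD hDN κ hκ J _ a
  obtain ⟨D', hD'⟩ : ∃ D' : Set N, D' = Subtype.val ⁻¹' D := ⟨_, rfl⟩
  have hD'c : IsCompact D' := by
    rw [hD']
    exact (Topology.IsInducing.subtypeVal.isCompact_preimage_iff (by
      rw [Subtype.range_coe]
      exact hDN)).2 hD
  obtain ⟨ε, hε0, hεκ, hεa⟩ : ∃ ε : ℝ, 0 < ε ∧ ε ≤ κ ∧ ∀ j, ‖T.ι (a j)‖ ^ 2 ≠ 0 →
      ε ≤ ‖T.ι (a j)‖ ^ 2 / 4 := by
    have h1 : ∀ᶠ ε : ℝ in 𝓝[>] 0, ε ≤ κ ∧ ∀ j, ‖T.ι (a j)‖ ^ 2 ≠ 0 → ε ≤ ‖T.ι (a j)‖ ^ 2 / 4 := by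
      have h2 : ∀ r : ℝ, 0 < r → ∀ᶠ ε : ℝ in 𝓝[>] 0, ε ≤ r := fun r hr =>
        nhdsWithin_le_nhds ((gt_mem_nhds hr).mono fun x hx => hx.le)
      refine (h2 κ hκ).and (eventually_all.2 fun j => ?_)
      by_cases h0 : ‖T.ι (a j)‖ ^ 2 = 0
      · exact Eventually.of_forall fun ε h => absurd h0 h
      · have h3 : 0 < ‖T.ι (a j)‖ ^ 2 := lt_of_le_of_ne (by positivity) (Ne.symm h0)
        exact (h2 (‖T.ι (a j)‖ ^ 2 / 4) (by positivity)).mono fun ε h _ => h
    obtain ⟨ε, ⟨h3, h4⟩, h5⟩ := (h1.and self_mem_nhdsWithin).exists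
    exact ⟨ε, h5, h3, h4⟩
  obtain ⟨x, hx1, hx2, hx3⟩ := (S.sub N).exists_eigen_fam (layCharZ hp q) (layCharZ_cont hp q)
    (hkey _ (layCharZ_cont hp q)) J a D' hD'c ε hε0
  refine ⟨x, ⟨hx1, fun s hs => ?_⟩, fun j => ?_⟩
  · have h1 := hx2 ⟨s, hDN hs⟩ (by rw [hD']; exact hs)
    rw [layCharZ_coe] at h1
    exact h1.trans hεκ
  · have h1 := hx3 j
    by_cases h0 : ‖T.ι (a j)‖ ^ 2 = 0
    · rw [h0]
      positivity
    · have h2 := hεa j h0
      linarith

end

section
variable {G : Type w} [Group G] [TopologicalSpace G] {N N' : Subgroup G}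

theorem key_eigZ_of_keyAll {A : Type u} [CStarAlgebra A] {K : Type v}
    [NormedAddCommGroup K] [InnerProductSpace ℂ K] [CompleteSpace K]
    [IsTopologicalGroup G] [T2Space G]
    [SecondCountableTopology G] [LocallyCompactSpace G] [MeasurableSpace G] [BorelSpace G]
    (μ : Measure G) [μ.IsHaarMeasure] {T : TrAlg A K} (S : TrAct G T) (hR : Reiter μ)
    (hSO : S.SO μ Set.univ) {m : ℕ}
    {p : G → EuclideanSpace ℝ (Fin m)} (hN : IsClosed (N : Set G)) (hp : IsTLayer N N' p)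
    (hK : KeyAll.{u, v, w} N) : (S.sub N).Key ∧ S.EigZ N p := by
  have : LocallyCompactSpace N := hN.isClosedEmbedding_subtypeVal.locallyCompactSpace
  have : SecondCountableTopology N :=
    inferInstanceAs (SecondCountableTopology ((N : Set G) : Set G))
  let := CStarAlgebra.spectralOrder A
  have := CStarAlgebra.spectralOrderedRing A
  refine ⟨?_, ?_⟩
  · exact hK.key_cm μ S N.subtype continuous_subtype_val hN.isClosedEmbedding_subtypeVal hR hSO
  · exact S.eigZ_of_key hp fun χ hχ => hK.key_twist μ S N.subtype continuous_subtype_val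
      hN.isClosedEmbedding_subtypeVal hR hSO 2 (tw2 χ) (tw2_cont hχ)

end

end Pool.Agent.AbCoc
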