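import Pool.Agent.Lib_MP_418a80_tl.TDefs

/-!
# MP_418a80_an, [TL]: towers for unitary eigenvectors

The descent of `Lib_MP_418a80_on`, `Lib_MP_418a80_con` for a unitary `w` which is an eigenvector of
`N` (instead of a fixed point). No hypothesis on how `g` acts on the layers is needed.
-/

set_option autoImplicit false
set_option linter.unusedVariables false
set_option linter.unusedSectionVars false

open Topology Filter MeasureTheory
open scoped RealInnerProductSpace ComplexConjugate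

namespace Pool.Agent.AbCoc

universe u v w z

section
variable {A : Type u} [CStarAlgebra A] {K : Type v} [NormedAddCommGroup K]
  [InnerProductSpace ℂ K] [CompleteSpace K]
  {G : Type w} [Group G] [TopologicalSpace G] {T : TrAlg A K} (S : TrAct G T)

/-- `d` is an eigenvector of `N` -/
def TrAct.EigW (N : Subgroup G) (d : A) : Prop := ∀ s ∈ N, ∃ c : ℂ, S.α s d = c • d

/-- one step of the descent, for a unitary eigenvector `w` of `N` -/
def TrAct.NDescE (N N' : Subgroup G) : Prop :=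
  ∀ (w : A) (h1 : star w * w = 1) (h2 : w * star w = 1), S.EigW N w → ∀ g : G,
    (∀ s, s ∈ N ↔ g * s * g⁻¹ ∈ N) → S.FixU N (S.bw h1 h2 g) →
    ∃ h ∈ N, (∀ s, s ∈ N' ↔ (h⁻¹ * g) * s * (h⁻¹ * g)⁻¹ ∈ N') ∧
      S.FixU N' (S.bw h1 h2 (h⁻¹ * g))

/-- `Ad w ∘ α_g` fixes late near-`N`-invariant unitaries only if `g ∈ N` -/
def TrAct.MemE (N : Subgroup G) : Prop :=
  ∀ (w : A) (h1 : star w * w = 1) (h2 : w * star w = 1), S.EigW N w → ∀ g : G,
    (∀ s, s ∈ N ↔ g * s * g⁻¹ ∈ N) → S.FixU N (S.bw h1 h2 g) → g ∈ N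

/-- `Ad w` fixes late near-`N`-invariant unitaries only if `w` is a scalar -/
def TrAct.ScE (N : Subgroup G) : Prop :=
  ∀ (w : A) (h1 : star w * w = 1) (h2 : w * star w = 1), S.EigW N w →
    S.FixU N (S.bw h1 h2 1) → w = T.τ w • (1 : A)

/-- for every `P` of finite index in `N`, the `P`-eigenvectors which commute with late
near-`N`-invariant unitaries are scalars -/
def TrAct.StarE (N : Subgroup G) : Prop :=
  ∀ P : Subgroup G, FiNor P N → ∀ d : A, S.EigW P d → S.Intw (N : Set G) 1 d →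
    d = T.τ d • (1 : A)

/-- the bottom for `g = 1` -/
def TrAct.FixK1 : Prop :=
  ∀ B : Subgroup G, IsCompact (B : Set G) → ∀ (w : A) (h1 : star w * w = 1)
    (h2 : w * star w = 1), S.FixU B (S.bw h1 h2 1) → w = T.τ w • (1 : A)

/-- towers for `NDescE`, with a compact bottom -/
inductive TrAct.NTowerE : Subgroup G → Prop
  | bot (B : Subgroup G) (hB : IsCompact (B : Set G)) : TrAct.NTowerE B
  | step (N N' : Subgroup G) (hle : N' ≤ N) (hd : S.NDescE N N') (h : TrAct.NTowerE N') :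
      TrAct.NTowerE N

variable {S}

theorem TrAct.EigW.mono {N N' : Subgroup G} {d : A} (h : S.EigW N d) (hle : N' ≤ N) :
    S.EigW N' d := fun s hs => h s (hle hs)

theorem TrAct.EigW.of_fixed {N : Subgroup G} {d : A} (h : ∀ s ∈ N, S.α s d = d) : S.EigW N d :=
  fun s hs => ⟨1, by rw [h s hs, one_smul]⟩

/-- the eigenvalue of a nonzero element is unimodular -/
theorem TrAct.norm_eig {d : A} (hd : d ≠ 0) {s : G} {c : ℂ} (h : S.α s d = c • d) : ‖c‖ = 1 := by
  have h1 := S.norm_map s d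
  rw [h, map_smul, norm_smul] at h1
  have h2 : 0 < ‖T.ι d‖ := by
    rw [norm_pos_iff]
    intro h3
    exact hd (T.inj (by rw [h3, map_zero]))
  exact mul_right_cancel₀ h2.ne' (by rw [one_mul]; exact h1)

/-- the phases cancel in `Ad w` -/
theorem TrAct.ad_smul {w : A} {c : ℂ} (hc : ‖c‖ = 1) (a : A) :
    (c • w) * a * star (c • w) = w * a * star w := by
  rw [star_smul, smul_mul_assoc, smul_mul_assoc, mul_smul_comm, smul_smul, Complex.star_def,
    Complex.mul_conj, Complex.normSq_eq_norm_sq, hc]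
  norm_num

theorem TrAct.ne_zero_of_unitary {w : A} (T : TrAlg A K) (h1 : star w * w = 1) : w ≠ 0 := by
  intro h
  rw [h, mul_zero] at h1
  have h2 := T.norm_one
  rw [← h1, map_zero, norm_zero] at h2
  exact zero_ne_one h2

variable (S)

theorem TrAct.memE_of_ntowerE (hF : S.FixK) {N : Subgroup G} (ht : S.NTowerE N) : S.MemE N := by
  induction ht with
  | bot B hB =>
    intro w h1 h2 _ g _ hfix
    exact hF B hB w h1 h2 g hfix
  | step N N' hle hd _ ih =>
    intro w h1 h2 hw g hg hfix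
    obtain ⟨h, hh, hg', hf⟩ := hd w h1 h2 hw g hg hfix
    have h3 := ih w h1 h2 (hw.mono hle) (h⁻¹ * g) hg' hf
    have h4 := N.mul_mem hh (hle h3)
    rwa [mul_inv_cancel_left] at h4

/-- if `Ad w ∘ α_h` fixes late near-`N`-invariant unitaries and `h ∈ N`, so does `Ad w` -/
theorem TrAct.fixU_one {N : Subgroup G} {w : A} (h1 : star w * w = 1) (h2 : w * star w = 1)
    {h : G} (hh : h ∈ N) (hf : S.FixU N (S.bw h1 h2 h)) : S.FixU N (S.bw h1 h2 1) := by
  intro ε hε
  obtain ⟨D, κ, hD, hDN, hκ, h3⟩ := hf (ε / 2) (by positivity)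
  refine ⟨D ∪ {h}, min κ (ε / 2), hD.union isCompact_singleton,
    Set.union_subset hDN (Set.singleton_subset_iff.2 hh), lt_min hκ (by positivity),
    fun u hu => ?_⟩
  have h4 := h3 u (hu.mono Set.subset_union_left (min_le_left _ _))
  have h5 : ‖T.ι (S.α h u - u)‖ ≤ ε / 2 := (hu.near h (Or.inr rfl)).trans (min_le_right _ _)
  have e : S.bw h1 h2 1 u - u = -(w * (S.α h u - u) * star w) + (S.bw h1 h2 h u - u) := by
    rw [S.bw_apply, S.bw_apply, S.one]
    noncomm_ring
  have hwu : star w * star (star w) = 1 := by rw [star_star]; exact h1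
  rw [e, map_add, map_neg]
  refine (norm_add_le _ _).trans ?_
  rw [norm_neg, T.norm_mul_unitary _ hwu, T.norm_unitary_mul w h1]
  linarith

theorem TrAct.scE_of_ntowerE (hF : S.FixK) (hF1 : S.FixK1) {N : Subgroup G}
    (ht : S.NTowerE N) : S.ScE N := by
  induction ht with
  | bot B hB =>
    intro w h1 h2 _ hfix
    exact hF1 B hB w h1 h2 hfix
  | step N N' hle hd ht' ih =>
    intro w h1 h2 hw hfix
    obtain ⟨h, hh, hg', hf⟩ := hd w h1 h2 hw 1 (fun s => by simp) hfix
    have h3 := S.memE_of_ntowerE hF ht' w h1 h2 (hw.mono hle) (h⁻¹ * 1) hg' hf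
    exact ih w h1 h2 (hw.mono hle) (S.fixU_one h1 h2 h3 hf)

/-- `NDescE` is stronger than `NDesc` -/
theorem TrAct.NDescE.nDesc {N N' : Subgroup G} (hle : N' ≤ N) (h : S.NDescE N N') :
    S.NDesc N N' := by
  intro w h1 h2 hw g hg hfix
  obtain ⟨k, hk, hg', hf⟩ := h w h1 h2 (TrAct.EigW.of_fixed hw) g hg hfix
  exact ⟨k, hk, hg', w, h1, h2, fun s hs => hw s (hle hs), hf⟩

/-- `Ad w ∘ α_g` intertwines, if `w` is an eigenvector -/
theorem TrAct.twc_bw_e {N : Subgroup G} {w : A} (h1 : Star.star w * w = 1)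
    (h2 : w * Star.star w = 1) (g : G)
    (hw : ∀ t ∈ N, g⁻¹ * t * g ∈ N → ∃ c : ℂ, S.α t w = c • w) :
    S.Twc N g (S.bw h1 h2 g) := by
  refine ⟨S.norm_bw h1 h2 g, fun s hs hgs a => ?_⟩
  have e : g⁻¹ * (g * s * g⁻¹) * g = s := by group
  obtain ⟨c, hc⟩ := hw _ hgs (by rw [e]; exact hs)
  have hc1 := TrAct.norm_eig (TrAct.ne_zero_of_unitary T h1) hc
  rw [S.bw_apply, S.bw_apply, map_mul, map_mul, map_star, hc, TrAct.ad_smul hc1, ← S.mul,
    ← S.mul]
  congr 3
  group

end

end Pool.Agent.AbCoc
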