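import Pool.Agent.Lib_MP_418a80_cn.CN5
import Pool.Agent.Lib_MP_418a80_tl.TDefs2

/-!
# MP_418a80_an, [TL]: the bottom for `g = 1`: the relative commutant of the fixed points of a
compact group is trivial
-/

set_option autoImplicit false
set_option linter.unusedVariables false
set_option linter.unusedSectionVars false

open Topology Filter MeasureTheory
open scoped RealInnerProductSpace ComplexConjugate ENNReal Pointwise

namespace Pool.Agent.AbCoc

universe u v w z

/-- an open set of finite measure which contains `1` and is invariant under a compact group -/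
theorem exists_inv_nhds {G : Type w} [Group G] [TopologicalSpace G] [IsTopologicalGroup G]
    [LocallyCompactSpace G] (N : Subgroup G) (hN : IsCompact (N : Set G)) :
    ∃ W : Set G, IsOpen W ∧ (1 : G) ∈ W ∧ (∀ k ∈ N, ∀ x, k * x ∈ W ↔ x ∈ W) ∧
      ∃ C : Set G, IsCompact C ∧ W ⊆ C := by
  obtain ⟨C, hC, hC1⟩ := exists_compact_mem_nhds (1 : G)
  refine ⟨(N : Set G) * interior C, isOpen_interior.mul_left, ?_, ?_, (N : Set G) * C,
    hN.mul hC, Set.mul_subset_mul_left interior_subset⟩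
  · exact ⟨1, N.one_mem, 1, mem_interior_iff_mem_nhds.2 hC1, one_mul 1⟩
  · intro k hk x
    constructor
    · rintro ⟨n, hn, y, hy, hxy⟩
      have hxy' : n * y = k * x := hxy
      refine ⟨k⁻¹ * n, N.mul_mem (N.inv_mem hk) hn, y, hy, ?_⟩
      change k⁻¹ * n * y = x
      rw [mul_assoc, hxy', inv_mul_cancel_left]
    · rintro ⟨n, hn, y, hy, hxy⟩
      have hxy' : n * y = x := hxy
      refine ⟨k * n, N.mul_mem hk hn, y, hy, ?_⟩
      change k * n * y = k * x
      rw [mul_assoc, hxy']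

section
variable {A : Type u} [CStarAlgebra A] {K : Type v} [NormedAddCommGroup K]
  [InnerProductSpace ℂ K] [CompleteSpace K]
variable {G : Type w} [Group G] [TopologicalSpace G] [IsTopologicalGroup G]
  [SecondCountableTopology G] [LocallyCompactSpace G] [MeasurableSpace G] [BorelSpace G]
  (μ : Measure G) [μ.IsHaarMeasure] {T : TrAlg A K} (S : TrAct G T)

/-- the relative commutant of the fixed points of a compact group -/
theorem TrAct.scalar_of_fix_compact [T2Space G] (hSO : S.SO μ Set.univ) (N : Subgroup G)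
    (hN : IsCompact (N : Set G)) {w : A} (h1 : star w * w = 1) (h2 : w * star w = 1)
    (hfix : ∀ x, (S.sub N).Fixed x → S.bw h1 h2 1 x = x) : w = T.τ w • (1 : A) := by
  obtain ⟨c, hc⟩ := S.exists_scalar_of_fix μ hSO N h1 h2 1 hfix
  obtain ⟨W, hWo, hW1, hWN, C, hC, hWC⟩ := exists_inv_nhds N hN
  have hWm : MeasurableSet W := hWo.measurableSet
  have hWf : μ W ≠ ∞ := ((measure_mono hWC).trans_lt hC.measure_lt_top).ne
  obtain ⟨ζ, hζ⟩ : ∃ ζ : Lp K 2 μ, ζ = indicatorConstLp 2 hWm hWf (T.ι 1) := ⟨_, rfl⟩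
  have hζae : (ζ : G → K) =ᵐ[μ] W.indicator fun _ => T.ι 1 := by
    rw [hζ]
    exact indicatorConstLp_coeFn
  have hζf : ζ ∈ fixL μ K N.subtype := by
    intro k
    apply Lp.ext
    filter_upwards [lam_ae μ (N.subtype k) ζ, ae_translate μ (N.subtype k)⁻¹ hζae, hζae]
      with x k1 k2 k3
    rw [k1, k2, k3]
    have h3 := hWN (N.subtype k)⁻¹ (N.inv_mem k.2) x
    by_cases hx : x ∈ W
    · rw [Set.indicator_of_mem (h3.2 hx), Set.indicator_of_mem hx]
    · rw [Set.indicator_of_notMem (fun h => hx (h3.1 h)), Set.indicator_of_notMem hx]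
  have h3 := hc ζ hζf
  have hlam : (lam μ K).U 1 ζ = ζ := by
    rw [(lam μ K).one]
    rfl
  rw [hlam] at h3
  have h4 : ∀ᵐ x ∂μ, x ∈ W → T.ι 1 = c • T.ι (S.α x⁻¹ w) := by
    filter_upwards [Lp.coeFn_smul c (S.pi μ w ζ), S.pi_ae μ w ζ, hζae] with x k1 k2 k5 hx
    rw [h3] at k1
    rw [Pi.smul_apply, k2, k5, Set.indicator_of_mem hx, T.Lm_apply_one] at k1
    exact k1
  obtain ⟨x, hx, hxW⟩ : ∃ x, (x ∈ W → T.ι 1 = c • T.ι (S.α x⁻¹ w)) ∧ x ∈ W := by
    by_contra hne
    push Not at hne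
    have h5 : ∀ᵐ x ∂μ, x ∉ W := by
      filter_upwards [h4] with x hx
      exact hne x hx
    have h6 : μ W = 0 := by
      have := ae_iff.1 h5
      simpa using this
    exact (hWo.measure_pos μ ⟨1, hW1⟩).ne' h6
  have h5 := hx hxW
  rw [← map_smul] at h5
  have h6 : (1 : A) = c • S.α x⁻¹ w := T.inj h5
  have hc0 : c ≠ 0 := by
    intro h
    rw [h, zero_smul] at h6
    have h7 := T.norm_one
    rw [h6, map_zero, norm_zero] at h7
    exact zero_ne_one h7
  have h7 : (1 : A) = c • w := by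
    have h8 := congrArg (S.α x) h6
    rwa [map_one, map_smul, S.apply_inv] at h8
  have h8 : w = c⁻¹ • (1 : A) := by
    rw [h7, smul_smul, inv_mul_cancel₀ hc0, one_smul]
  have h9 : T.τ w = c⁻¹ := by
    conv_lhs => rw [h8]
    rw [T.τ_smul, T.τ_one, mul_one]
  rw [h9]
  exact h8

/-- the bottom for `g = 1` -/
theorem TrAct.fixK1_of_SO [T2Space G] (hSO : S.SO μ Set.univ) : S.FixK1 := by
  intro B hB w h1 h2 hfix
  exact S.scalar_of_fix_compact μ hSO B hB h1 h2 fun x hx => S.fix_of_fixU B hfix hx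

end

end Pool.Agent.AbCoc
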