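import Pool.Agent.Lib_MP_418a80_tl.TDefs2

/-!
# MP_418a80_an, [TL]: eigenvectors which intertwine are multiples of unitaries
-/

set_option autoImplicit false
set_option linter.unusedVariables false
set_option linter.unusedSectionVars false

open Topology Filter MeasureTheory
open scoped RealInnerProductSpace ComplexConjugate

namespace Pool.Agent.AbCoc

universe u v w z

section
variable {A : Type u} [CStarAlgebra A] {K : Type v} [NormedAddCommGroup K]
  [InnerProductSpace ℂ K] [CompleteSpace K]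
  {G : Type w} [Group G] [TopologicalSpace G] [IsTopologicalGroup G] {T : TrAlg A K}
  (S : TrAct G T)

/-- a multiple of a nonzero intertwiner is unitary; `hsc` is used for `z z*` -/
theorem TrAct.exists_bw_m (N : Subgroup G) {z : A} {g : G}
    (hsc : S.Intw (N : Set G) 1 (z * star z) → z * star z = T.τ (z * star z) • (1 : A))
    (hz : S.Intw (N : Set G) g z) (h0 : z ≠ 0) :
    ∃ (w : A) (h1 : star w * w = 1) (h2 : w * star w = 1), (∃ c : ℂ, c ≠ 0 ∧ w = c • z) ∧
      S.FixU N (S.bw h1 h2 g) := by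
  have hint : S.Intw (N : Set G) 1 (z * star z) := by
    intro ε hε
    obtain ⟨D, κ, hD, hDN, hκ, h1⟩ := hz (ε / (2 * (‖z‖ + 1))) (by positivity)
    refine ⟨D, κ, hD, hDN, hκ, fun q hq => ?_⟩
    have h2 := h1 q hq
    have h3 := h1 (star q) hq.star
    have e : q * (z * star z) - z * star z * S.α 1 q
        = (q * z - z * S.α g q) * star z - z * star (star q * z - z * S.α g (star q)) := by
      rw [S.one, star_sub, star_mul, star_mul, star_star, map_star, star_star]
      noncomm_ring
    rw [e, map_sub]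
    refine (norm_sub_le _ _).trans ?_
    have h4 : ‖T.ι ((q * z - z * S.α g q) * star z)‖ ≤ (ε / (2 * (‖z‖ + 1))) * ‖z‖ := by
      refine (T.mul_le' _ _).trans ?_
      rw [norm_star]
      exact mul_le_mul_of_nonneg_right h2 (norm_nonneg _)
    have h5 : ‖T.ι (z * star (star q * z - z * S.α g (star q)))‖
        ≤ ‖z‖ * (ε / (2 * (‖z‖ + 1))) := by
      refine (T.mul_le _ _).trans ?_
      rw [T.norm_star]
      exact mul_le_mul_of_nonneg_left h3 (norm_nonneg _)
    have h6 : (ε / (2 * (‖z‖ + 1))) * ‖z‖ ≤ ε / 2 := by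
      rw [div_mul_eq_mul_div, div_le_div_iff₀ (by positivity) (by norm_num)]
      nlinarith [norm_nonneg z]
    linarith
  have hsc := hsc hint
  -- the scalar is positive
  obtain ⟨r, hr⟩ : ∃ r : ℝ, r = ‖T.ι (star z)‖ ^ 2 := ⟨_, rfl⟩
  have hτ : T.τ (z * star z) = (r : ℂ) := by
    have h := T.inner_eq_τ (star z) (star z)
    rw [star_star] at h
    rw [← h, hr, inner_self_eq_norm_sq_to_K]
    norm_cast
  have hr0 : 0 < r := by
    rw [hr, T.norm_star]
    have h1 : 0 < ‖T.ι z‖ := by
      rw [norm_pos_iff]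
      intro h
      exact h0 (T.inj (by rw [h, map_zero]))
    positivity
  rw [hτ] at hsc
  obtain ⟨c, hc⟩ : ∃ c : ℝ, c = (Real.sqrt r)⁻¹ := ⟨_, rfl⟩
  have hcc : c * c * r = 1 := by
    rw [hc]
    have h1 := Real.mul_self_sqrt hr0.le
    have h2 : Real.sqrt r ≠ 0 := (Real.sqrt_pos.2 hr0).ne'
    field_simp
    nlinarith
  obtain ⟨w, hw⟩ : ∃ w : A, w = (c : ℂ) • z := ⟨_, rfl⟩
  have hws : star w = (c : ℂ) • star z := by
    rw [hw, star_smul, Complex.star_def, Complex.conj_ofReal]
  have h2 : w * star w = 1 := by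
    rw [hws, hw, smul_mul_smul_comm, hsc, smul_smul, ← Complex.ofReal_mul, ← Complex.ofReal_mul,
      hcc, Complex.ofReal_one, one_smul]
  have h1 : star w * w = 1 := by
    have h3 : ‖T.ι (1 - star w * w)‖ ^ 2 = 0 := by
      have e : star (1 - star w * w) * (1 - star w * w) = 1 - star w * w := by
        rw [star_sub, star_one, star_mul, star_star, mul_sub, mul_one, sub_mul, one_mul]
        have e2 : star w * w * (star w * w) = star w * w := by
          rw [mul_assoc, ← mul_assoc w, h2, one_mul]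
        rw [e2, sub_self, sub_zero]
      rw [T.norm_sq, e, T.τ_sub, T.τ_one, T.τ_mul_comm, h2, T.τ_one, sub_self, Complex.zero_re]
    have h4 : T.ι (1 - star w * w) = 0 := norm_eq_zero.1 (pow_eq_zero_iff two_ne_zero |>.1 h3)
    exact (sub_eq_zero.1 (T.inj (by rw [h4, map_zero]))).symm
  have hc0 : (c : ℂ) ≠ 0 := by
    intro h
    have h5 : c = 0 := by exact_mod_cast h
    rw [h5] at hcc
    norm_num at hcc
  refine ⟨w, h1, h2, ⟨c, hc0, hw⟩, fun ε hε => ?_⟩
  obtain ⟨D, κ, hD, hDN, hκ, h3⟩ := hz (ε / (|c| + 1)) (by positivity)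
  refine ⟨D, κ, hD, hDN, hκ, fun q hq => ?_⟩
  have e : S.bw h1 h2 g q - q = -((c : ℂ) • (q * z - z * S.α g q)) * star w := by
    rw [S.bw_apply, smul_sub, neg_sub, sub_mul]
    congr 1
    · rw [hw, smul_mul_assoc]
    · have e3 : (c : ℂ) • (q * z) = q * w := by rw [hw, mul_smul_comm]
      rw [e3, mul_assoc, h2, mul_one]
  have hwu : star w * star (star w) = 1 := by rw [star_star]; exact h1
  rw [e, T.norm_mul_unitary _ hwu, map_neg, norm_neg, map_smul, norm_smul, Complex.norm_real,
    Real.norm_eq_abs]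
  have h4 := h3 q hq
  calc |c| * ‖T.ι (q * z - z * S.α g q)‖ ≤ (|c| + 1) * (ε / (|c| + 1)) :=
        mul_le_mul (by linarith) h4 (norm_nonneg _) (by positivity)
    _ = ε := by field_simp


variable {S}

theorem TrAct.EigW.smul {N : Subgroup G} {d : A} (h : S.EigW N d) (c : ℂ) : S.EigW N (c • d) := by
  intro s hs
  obtain ⟨e, he⟩ := h s hs
  exact ⟨e, by rw [map_smul, he, smul_comm]⟩

/-- `d d*` is fixed -/
theorem TrAct.EigW.mul_star_self {N : Subgroup G} {d : A} (h : S.EigW N d) :
    ∀ s ∈ N, S.α s (d * star d) = d * star d := by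
  intro s hs
  by_cases h0 : d = 0
  · rw [h0, zero_mul, map_zero]
  · obtain ⟨c, hc⟩ := h s hs
    have hc1 := TrAct.norm_eig h0 hc
    have h1 := TrAct.ad_smul (w := d) hc1 1
    rw [mul_one, mul_one] at h1
    rw [map_mul, map_star, hc, h1]

end

section
variable {A : Type u} [CStarAlgebra A] {K : Type v} [NormedAddCommGroup K]
  [InnerProductSpace ℂ K] [CompleteSpace K]
  {G : Type w} [Group G] [TopologicalSpace G] [IsTopologicalGroup G] [T2Space G]
  [SecondCountableTopology G] [LocallyCompactSpace G] {T : TrAlg A K} (S : TrAct G T)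

/-- `N`-eigenvectors which commute with late near-`N`-invariant unitaries are scalars -/
theorem TrAct.scalar_of_eig (N : Subgroup G) (hN : IsClosed (N : Set G)) (hkey : (S.sub N).Key)
    (hsc : S.ScE N) {C : A} (hC : S.EigW N C) (hi : S.Intw (N : Set G) 1 C) :
    C = T.τ C • (1 : A) := by
  by_cases h0 : C = 0
  · rw [h0]
    unfold TrAlg.τ
    rw [map_zero, inner_zero_right, zero_smul]
  obtain ⟨w, h1, h2, ⟨c, hc0, hw⟩, hfix⟩ := S.exists_bw_m N (g := 1)
    (fun h => S.scalar_of_intw N hN hkey hC.mul_star_self h) hi h0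
  have h3 := hsc w h1 h2 (by rw [hw]; exact hC.smul c) hfix
  have h4 : C = (c⁻¹ * T.τ w) • (1 : A) := by
    rw [← smul_smul, ← h3, hw, smul_smul, inv_mul_cancel₀ hc0, one_smul]
  have h5 : T.τ C = c⁻¹ * T.τ w := by
    conv_lhs => rw [h4]
    rw [T.τ_smul, T.τ_one, mul_one]
  rw [h5]
  exact h4

end

end Pool.Agent.AbCoc
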