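import Pool.Agent.Lib_MP_418a80_tl.TDefs

/-!
# [TL] part (B), a: periodic lifts of `ℝ^m` in one compact set of `N`, for a torus layer `N > N'`
-/

set_option autoImplicit false
set_option linter.unusedVariables false
set_option linter.unusedSectionVars false

open Topology Filter MeasureTheory
open scoped RealInnerProductSpace ComplexConjugate Pointwise

namespace Pool.Agent.AbCoc

universe u v w z

theorem ch_two_pi_mul_int (n : ℤ) : ch (2 * Real.pi * n) = 1 := by
  unfold ch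
  rw [Complex.exp_eq_one_iff]
  exact ⟨n, by push_cast; ring⟩

theorem ch_eq_of_circle (x : ℝ) : ch x = ((Circle.exp x : Circle) : ℂ) := by
  rw [Circle.coe_exp]
  rfl

theorem inner_zv_basis {m : ℕ} (q : Fin m → ℤ) (v : EuclideanSpace ℝ (Fin m)) :
    ⟪zv q, v⟫ = ∑ i, ((q i : ℤ) : ℝ) * ⟪EuclideanSpace.basisFun (Fin m) ℝ i, v⟫ := by
  unfold zv
  rw [sum_inner]
  refine Finset.sum_congr rfl fun i _ => ?_
  rw [real_inner_smul_left]

theorem zv_single {m : ℕ} (i : Fin m) :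
    zv (Pi.single i (1 : ℤ)) = EuclideanSpace.basisFun (Fin m) ℝ i := by
  unfold zv
  rw [Finset.sum_eq_single i]
  · rw [Pi.single_eq_same, Int.cast_one, one_smul]
  · intro i' _ hi'
    rw [Pi.single_eq_of_ne hi', Int.cast_zero, zero_smul]
  · intro h
    exact absurd (Finset.mem_univ i) h

/-- characters of `𝕋^m` are determined by the coordinates -/
theorem ch_zv_eq_of_basis {m : ℕ} {v v' : EuclideanSpace ℝ (Fin m)}
    (h : ∀ i, ch ⟪zv (Pi.single i (1 : ℤ)), v⟫ = ch ⟪zv (Pi.single i (1 : ℤ)), v'⟫)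
    (q : Fin m → ℤ) : ch ⟪zv q, v⟫ = ch ⟪zv q, v'⟫ := by
  have hn : ∀ i, ∃ n : ℤ, ⟪EuclideanSpace.basisFun (Fin m) ℝ i, v⟫
      = ⟪EuclideanSpace.basisFun (Fin m) ℝ i, v'⟫ + 2 * Real.pi * n := by
    intro i
    have h1 := h i
    rw [zv_single] at h1
    unfold ch at h1
    rw [Complex.exp_eq_exp_iff_exists_int] at h1
    obtain ⟨n, hn⟩ := h1
    refine ⟨n, ?_⟩
    have h2 : (((⟪EuclideanSpace.basisFun (Fin m) ℝ i, v⟫ : ℝ) : ℂ)) * Complex.I
        = (((⟪EuclideanSpace.basisFun (Fin m) ℝ i, v'⟫ + 2 * Real.pi * n : ℝ) : ℂ)) * Complex.I := by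
      rw [hn]
      push_cast
      ring
    exact_mod_cast mul_right_cancel₀ Complex.I_ne_zero h2
  choose n hn using hn
  have e : ⟪zv q, v⟫ = ⟪zv q, v'⟫ + 2 * Real.pi * ((∑ i, q i * n i : ℤ) : ℝ) := by
    rw [inner_zv_basis, inner_zv_basis]
    push_cast
    rw [Finset.mul_sum, ← Finset.sum_add_distrib]
    refine Finset.sum_congr rfl fun i _ => ?_
    rw [hn i]
    ring
  rw [e, ch_add, ch_two_pi_mul_int, mul_one]

theorem ch_zv_add_period {m : ℕ} (q k : Fin m → ℤ) (v : EuclideanSpace ℝ (Fin m)) :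
    ch ⟪zv q, v + (2 * Real.pi) • zv k⟫ = ch ⟪zv q, v⟫ := by
  have e : ⟪zv q, v + (2 * Real.pi) • zv k⟫
      = ⟪zv q, v⟫ + 2 * Real.pi * ((∑ i, q i * k i : ℤ) : ℝ) := by
    rw [inner_add_right, real_inner_smul_right, inner_zv_basis q (zv k)]
    congr 2
    push_cast
    refine Finset.sum_congr rfl fun i _ => ?_
    congr 1
    unfold zv
    rw [inner_sum, Finset.sum_eq_single i]
    · rw [real_inner_smul_right, real_inner_self_eq_norm_sq,
        (EuclideanSpace.basisFun (Fin m) ℝ).norm_eq_one]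
      norm_num
    · intro j _ hj
      rw [real_inner_smul_right]
      have := (EuclideanSpace.basisFun (Fin m) ℝ).orthonormal.2 hj.symm
      rw [this, mul_zero]
    · intro h
      exact absurd (Finset.mem_univ i) h
  rw [e, ch_add, ch_two_pi_mul_int, mul_one]

/-- the reduced representative, coordinates in `[0, 2π)` -/
noncomputable def tred {m : ℕ} (v : EuclideanSpace ℝ (Fin m)) : EuclideanSpace ℝ (Fin m) :=
  v - (2 * Real.pi) • zv (fun i => ⌊⟪EuclideanSpace.basisFun (Fin m) ℝ i, v⟫ / (2 * Real.pi)⌋)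

theorem inner_basis_zv {m : ℕ} (k : Fin m → ℤ) (i : Fin m) :
    ⟪EuclideanSpace.basisFun (Fin m) ℝ i, zv k⟫ = ((k i : ℤ) : ℝ) := by
  unfold zv
  rw [inner_sum, Finset.sum_eq_single i]
  · rw [real_inner_smul_right, real_inner_self_eq_norm_sq,
      (EuclideanSpace.basisFun (Fin m) ℝ).norm_eq_one]
    norm_num
  · intro j _ hj
    rw [real_inner_smul_right]
    have := (EuclideanSpace.basisFun (Fin m) ℝ).orthonormal.2 hj.symm
    rw [this, mul_zero]
  · intro h
    exact absurd (Finset.mem_univ i) h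

theorem tred_add_period {m : ℕ} (k : Fin m → ℤ) (v : EuclideanSpace ℝ (Fin m)) :
    tred (v + (2 * Real.pi) • zv k) = tred v := by
  have hpi := Real.pi_pos
  unfold tred
  have e : (fun i => ⌊⟪EuclideanSpace.basisFun (Fin m) ℝ i, v + (2 * Real.pi) • zv k⟫
      / (2 * Real.pi)⌋) = (fun i => ⌊⟪EuclideanSpace.basisFun (Fin m) ℝ i, v⟫ / (2 * Real.pi)⌋) + k := by
    funext i
    rw [Pi.add_apply, ← Int.floor_add_intCast]
    congr 1
    rw [inner_add_right, real_inner_smul_right, inner_basis_zv]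
    field_simp
  rw [e, zv_add, smul_add]
  abel

theorem ch_zv_tred {m : ℕ} (q : Fin m → ℤ) (v : EuclideanSpace ℝ (Fin m)) :
    ch ⟪zv q, tred v⟫ = ch ⟪zv q, v⟫ := by
  have e : v = tred v + (2 * Real.pi) • zv (fun i =>
      ⌊⟪EuclideanSpace.basisFun (Fin m) ℝ i, v⟫ / (2 * Real.pi)⌋) := by
    unfold tred
    abel
  conv_rhs => rw [e]
  rw [ch_zv_add_period]

theorem norm_tred_le {m : ℕ} (v : EuclideanSpace ℝ (Fin m)) : ‖tred v‖ ≤ m * (2 * Real.pi) := by
  have hpi := Real.pi_pos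
  obtain ⟨b, hb⟩ : ∃ b : OrthonormalBasis (Fin m) ℝ (EuclideanSpace ℝ (Fin m)),
      b = EuclideanSpace.basisFun (Fin m) ℝ := ⟨_, rfl⟩
  have e1 : tred v = ∑ i, ⟪b i, tred v⟫ • b i := (b.sum_repr' (tred v)).symm
  rw [e1]
  refine (norm_sum_smul_le b _).trans ?_
  have h1 : ∀ i ∈ (Finset.univ : Finset (Fin m)), |⟪b i, tred v⟫| ≤ 2 * Real.pi := by
    intro i _
    have e2 : ⟪b i, tred v⟫ = ⟪b i, v⟫ - 2 * Real.pi * ⌊⟪b i, v⟫ / (2 * Real.pi)⌋ := by
      rw [hb]
      unfold tred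
      rw [inner_sub_right, real_inner_smul_right, inner_basis_zv]
    rw [e2]
    have h2 := Int.floor_le (⟪b i, v⟫ / (2 * Real.pi))
    have h3 := Int.lt_floor_add_one (⟪b i, v⟫ / (2 * Real.pi))
    rw [le_div_iff₀ (by positivity)] at h2
    rw [div_lt_iff₀ (by positivity)] at h3
    rw [abs_le]
    constructor <;> linarith
  refine (Finset.sum_le_sum h1).trans (le_of_eq ?_)
  rw [Finset.sum_const, Finset.card_univ, Fintype.card_fin, nsmul_eq_mul]

section
variable {G : Type w} [Group G] [TopologicalSpace G] {N N' : Subgroup G} {m : ℕ}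
  {p : G → EuclideanSpace ℝ (Fin m)}

namespace IsTLayer

/-- two elements with the same characters -/
theorem ker_of_eq (hp : IsTLayer N N' p) {s t : G} (hs : s ∈ N) (ht : t ∈ N)
    (h : ∀ q : Fin m → ℤ, pch p (zv q) s = pch p (zv q) t) : s⁻¹ * t ∈ N' :=
  (hp.ker _ (N.mul_mem (N.inv_mem hs) ht)).1 fun q => hp.inv_mul q hs ht (h q)

variable [IsTopologicalGroup G] [T2Space G] [SecondCountableTopology G] [LocallyCompactSpace G]

/-- small vectors have small lifts -/
theorem exists_near (hp : IsTLayer N N' p) (hN : IsClosed (N : Set G))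
    {U : Set G} (hU : U ∈ 𝓝 (1 : G)) :
    ∃ δ : ℝ, 0 < δ ∧ ∀ v : EuclideanSpace ℝ (Fin m), ‖v‖ < δ →
      ∃ s ∈ N, s ∈ U ∧ ∀ q : Fin m → ℤ, pch p (zv q) s = ch ⟪zv q, v⟫ := by
  have : LocallyCompactSpace N := hN.isClosedEmbedding_subtypeVal.locallyCompactSpace
  have : SecondCountableTopology N :=
    inferInstanceAs (SecondCountableTopology ((N : Set G) : Type _))
  have : SigmaCompactSpace N := sigmaCompactSpace_of_locallyCompact_secondCountable
  let f : N →* (Fin m → Circle) :=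
    { toFun := fun s i => Circle.exp ⟪zv (Pi.single i (1 : ℤ)), p s⟫
      map_one' := by
        funext i
        apply Circle.ext
        rw [← ch_eq_of_circle]
        exact hp.one _
      map_mul' := fun s t => by
        funext i
        apply Circle.ext
        rw [Pi.mul_apply, Circle.coe_mul, ← ch_eq_of_circle, ← ch_eq_of_circle,
          ← ch_eq_of_circle]
        exact hp.mul _ _ s.2 _ t.2 }
  have hfa : ∀ (s : N) (i : Fin m), ((f s i : Circle) : ℂ) = pch p (zv (Pi.single i (1 : ℤ))) s := by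
    intro s i
    change ((Circle.exp ⟪zv (Pi.single i (1 : ℤ)), p s⟫ : Circle) : ℂ) = _
    rw [← ch_eq_of_circle]
    rfl
  have hfs : Function.Surjective f := fun c => by
    obtain ⟨v, hv⟩ : ∃ v : EuclideanSpace ℝ (Fin m), ∀ i,
        ⟪zv (Pi.single i (1 : ℤ)), v⟫ = Complex.arg (c i : ℂ) := by
      refine ⟨∑ i, Complex.arg (c i : ℂ) • EuclideanSpace.basisFun (Fin m) ℝ i, fun i => ?_⟩
      rw [zv_single, inner_sum, Finset.sum_eq_single i]
      · rw [real_inner_smul_right, real_inner_self_eq_norm_sq,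
          (EuclideanSpace.basisFun (Fin m) ℝ).norm_eq_one]
        norm_num
      · intro j _ hj
        rw [real_inner_smul_right]
        have := (EuclideanSpace.basisFun (Fin m) ℝ).orthonormal.2 hj.symm
        rw [this, mul_zero]
      · intro h
        exact absurd (Finset.mem_univ i) h
    obtain ⟨s, hs, hsq⟩ := hp.surj v
    refine ⟨⟨s, hs⟩, ?_⟩
    funext i
    apply Circle.ext
    rw [hfa]
    change pch p (zv (Pi.single i (1 : ℤ))) s = _
    rw [hsq, hv, ch_eq_of_circle, Circle.exp_arg]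
  have hfc : Continuous f := by
    refine continuous_pi fun i => ?_
    have hemb : IsInducing (fun c : Circle => (c : ℂ)) := ⟨rfl⟩
    rw [hemb.continuous_iff]
    have h1 : Continuous fun s : N => pch p (zv (Pi.single i (1 : ℤ))) s :=
      continuousOn_iff_continuous_domRestrict.1 (hp.cont _)
    refine h1.congr fun s => ?_
    exact (hfa s i).symm
  have hopen : IsOpenMap f := f.isOpenMap_of_sigmaCompact hfs hfc
  have hU' : (Subtype.val ⁻¹' U : Set N) ∈ 𝓝 (1 : N) := continuous_subtype_val.continuousAt hU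
  have h2 : f '' (Subtype.val ⁻¹' U : Set N) ∈ 𝓝 (f 1) := hopen.image_mem_nhds hU'
  obtain ⟨e, he⟩ : ∃ e : EuclideanSpace ℝ (Fin m) → (Fin m → Circle),
      e = fun v i => Circle.exp ⟪zv (Pi.single i (1 : ℤ)), v⟫ := ⟨_, rfl⟩
  have hec : Continuous e := by
    rw [he]
    refine continuous_pi fun i => ?_
    exact Circle.exp.continuous.comp (continuous_const.inner continuous_id)
  have he0 : e 0 = f 1 := by
    rw [map_one, he]
    funext i
    apply Circle.ext
    rw [← ch_eq_of_circle, inner_zero_right, ch_zero]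
    rfl
  have h3 : e ⁻¹' (f '' (Subtype.val ⁻¹' U : Set N)) ∈ 𝓝 (0 : EuclideanSpace ℝ (Fin m)) := by
    refine hec.continuousAt ?_
    rwa [he0]
  obtain ⟨δ, hδ, hδ2⟩ := Metric.mem_nhds_iff.1 h3
  refine ⟨δ, hδ, fun v hv => ?_⟩
  have h4 : v ∈ Metric.ball (0 : EuclideanSpace ℝ (Fin m)) δ := by rwa [mem_ball_zero_iff]
  obtain ⟨s, hs, hsv⟩ := hδ2 h4
  refine ⟨s, s.2, hs, fun q => ?_⟩
  refine ch_zv_eq_of_basis (fun i => ?_) q
  have h5 : ((f s i : Circle) : ℂ) = ((e v i : Circle) : ℂ) := by rw [hsv]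
  rw [hfa, he] at h5
  rw [ch_eq_of_circle (⟪zv (Pi.single i (1 : ℤ)), v⟫)]
  exact h5

/-- periodic lifts in one compact set -/
theorem exists_lift (hp : IsTLayer N N' p) (hN : IsClosed (N : Set G)) :
    ∃ (σ : EuclideanSpace ℝ (Fin m) → G) (K : Set G), IsCompact K ∧ K ⊆ (N : Set G) ∧
      (∀ v, σ v ∈ K) ∧ (∀ v, ∀ q : Fin m → ℤ, pch p (zv q) (σ v) = ch ⟪zv q, v⟫) ∧
      ∀ v, ∀ k : Fin m → ℤ, σ (v + (2 * Real.pi) • zv k) = σ v := by
  have hpi := Real.pi_pos
  obtain ⟨K1, hK1, hK1n⟩ := exists_compact_mem_nhds (1 : G)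
  obtain ⟨δ, hδ, hδ2⟩ := hp.exists_near hN hK1n
  obtain ⟨n, hn⟩ : ∃ n : ℕ, n = ⌈m * (2 * Real.pi) / δ⌉₊ + 1 := ⟨_, rfl⟩
  have hn0 : (0 : ℝ) < n := by rw [hn]; positivity
  have hnδ : m * (2 * Real.pi) < n * δ := by
    have h1 := Nat.le_ceil (m * (2 * Real.pi) / δ)
    have h2 : m * (2 * Real.pi) / δ < n := by rw [hn]; push_cast; linarith
    rwa [div_lt_iff₀ hδ] at h2
  have hs : ∀ v : EuclideanSpace ℝ (Fin m), ‖v‖ ≤ m * (2 * Real.pi) →
      ∃ s ∈ N, s ∈ K1 ∧ ∀ q : Fin m → ℤ, pch p (zv q) (s ^ n) = ch ⟪zv q, v⟫ := by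
    intro v hv
    obtain ⟨s, hs, hsK, hsv⟩ := hδ2 ((n : ℝ)⁻¹ • v) (by
      rw [norm_smul, norm_inv, Real.norm_of_nonneg hn0.le, inv_mul_lt_iff₀ hn0]
      linarith)
    refine ⟨s, hs, hsK, fun q => ?_⟩
    rw [hp.pow q hs, hsv, ← onchar_nat_mul, real_inner_smul_right, ← mul_assoc,
      mul_inv_cancel₀ hn0.ne', one_mul]
  choose! s hsN hsK hsv using hs
  have hK : IsCompact (K1 ∩ (N : Set G)) := hK1.inter_right hN
  refine ⟨fun v => s (tred v) ^ n, (fun x : G => x ^ n) '' (K1 ∩ (N : Set G)),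
    hK.image (continuous_pow n), ?_, fun v => ?_, fun v q => ?_, fun v k => ?_⟩
  · rintro _ ⟨x, hx, rfl⟩
    exact N.pow_mem hx.2 n
  · exact ⟨s (tred v), ⟨hsK _ (norm_tred_le v), hsN _ (norm_tred_le v)⟩, rfl⟩
  · rw [hsv _ (norm_tred_le v), ch_zv_tred]
  · change s (tred (v + (2 * Real.pi) • zv k)) ^ n = s (tred v) ^ n
    rw [tred_add_period]

end IsTLayer

end

end Pool.Agent.AbCoc
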