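import Pool.Agent.Lib_MP_418a80_con.CGlue
import Pool.Agent.Lib_MP_418a80_tl.TBa

/-!
# [TL] TGlue0: mixed towers (vector and torus layers): pull back to `G`, finite index, open subgroups

`L` open, `B` compact normal in `L`; the members of a mixed tower of `L / B` are pulled back to `G`.
Subgroups of finite index and open subgroups meet every coset of `B` in such a member.
-/

set_option autoImplicit false
set_option linter.unusedVariables false
set_option linter.unusedSectionVars false

open Topology Filter MeasureTheory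
open scoped RealInnerProductSpace ComplexConjugate

namespace Pool.Agent.AbCoc

universe u v w z

/-- towers of closed subgroups with vector layers and torus layers, all members `≠ 1` with KEY -/
inductive MTower.{u', v', w'} {G : Type w'} [Group G] [TopologicalSpace G] : Subgroup G → Prop
  | bot : MTower ⊥
  | vec (N N' : Subgroup G) (m : ℕ) (p : G → EuclideanSpace ℝ (Fin m))
      (hN : IsClosed (N : Set G)) (hp : IsLayer N N' p) (hK : KeyAll.{u', v', w'} N)
      (h : MTower N') : MTower N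
  | tor (N N' : Subgroup G) (m : ℕ) (p : G → EuclideanSpace ℝ (Fin m))
      (hN : IsClosed (N : Set G)) (hp : IsTLayer N N' p) (hK : KeyAll.{u', v', w'} N)
      (h : MTower N') : MTower N

section
variable {G : Type w} [Group G] [TopologicalSpace G]

theorem KTower.mtower {N : Subgroup G} (h : KTower.{u, v, w} N) : MTower.{u, v, w} N := by
  induction h with
  | bot => exact MTower.bot
  | step N N' m p hm hN hp hK h ih => exact MTower.vec N N' m p hN hp hK ih

/-- the tower vector group, torus, vector groups -/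
theorem MTower.of_layers (Q1 N' : Subgroup G) {m b : ℕ} (p : G → EuclideanSpace ℝ (Fin m))
    (p' : G → EuclideanSpace ℝ (Fin b)) (h1 : IsClosed (Q1 : Set G))
    (hl : IsLayer (⊤ : Subgroup G) Q1 p) (ht : IsTLayer Q1 N' p')
    (hK : KeyAll.{u, v, w} (⊤ : Subgroup G)) (hK1 : KeyAll.{u, v, w} Q1)
    (h : KTower.{u, v, w} N') : MTower.{u, v, w} (⊤ : Subgroup G) := by
  refine MTower.vec ⊤ Q1 m p ?_ hl hK (MTower.tor Q1 N' b p' h1 ht hK1 h.mtower)
  rw [Subgroup.coe_top]
  exact isClosed_univ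

theorem MTower.keyAll {N : Subgroup G} (h : MTower.{u, v, w} N) (hne : N ≠ ⊥) :
    KeyAll.{u, v, w} N := by
  cases h with
  | bot => exact absurd rfl hne
  | vec _ N' m p hN hp hK h => exact hK
  | tor _ N' m p hN hp hK h => exact hK

end

section top
variable {G : Type w} [Group G] [TopologicalSpace G] [IsTopologicalGroup G] {L B : Subgroup G}
  [hn : (B.subgroupOf L).Normal]

theorem pch_extL {m : ℕ} (p : L ⧸ B.subgroupOf L → EuclideanSpace ℝ (Fin m))
    (q : EuclideanSpace ℝ (Fin m)) {g : G} (h : g ∈ L) :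
    pch (extL L B p) q g = pch p q (QuotientGroup.mk ⟨g, h⟩ : L ⧸ B.subgroupOf L) := by
  unfold pch
  rw [extL_apply p h]

theorem IsTLayer.pre {m : ℕ} {R R' : Subgroup (L ⧸ B.subgroupOf L)}
    {p : L ⧸ B.subgroupOf L → EuclideanSpace ℝ (Fin m)} (hp : IsTLayer R R' p) :
    IsTLayer (preL L B R) (preL L B R') (extL L B p) where
  cont q := by
    rw [continuousOn_iff_continuous_domRestrict]
    have h1 : Continuous ((R : Set (L ⧸ B.subgroupOf L)).domRestrict (pch p (zv q))) :=
      continuousOn_iff_continuous_domRestrict.1 (hp.cont q)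
    have h2 := h1.comp (toR_continuous (B := B) R)
    refine h2.congr fun x => ?_
    exact (pch_extL p (zv q) (preL_le R x.2)).symm
  mul q s hs t ht := by
    have h1 := preL_le R hs
    have h2 := preL_le R ht
    rw [pch_extL p _ h1, pch_extL p _ h2, pch_extL p _ (L.mul_mem h1 h2)]
    exact hp.mul q _ (mem_preL.1 hs).2 _ (mem_preL.1 ht).2
  surj v := by
    obtain ⟨s, hs, hsq⟩ := hp.surj v
    obtain ⟨x, rfl⟩ := QuotientGroup.mk_surjective s
    exact ⟨x, mem_preL.2 ⟨x.2, hs⟩, fun q => by rw [pch_extL p _ x.2]; exact hsq q⟩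
  ker s hs := by
    have h1 := preL_le R hs
    have e : (∀ q : Fin m → ℤ, pch (extL L B p) (zv q) s = 1) ↔
        ∀ q : Fin m → ℤ, pch p (zv q) (QuotientGroup.mk ⟨s, h1⟩ : L ⧸ B.subgroupOf L) = 1 :=
      forall_congr' fun q => by rw [pch_extL p _ h1]
    rw [e, hp.ker _ (mem_preL.1 hs).2]
    exact ⟨fun h => mem_preL.2 ⟨h1, h⟩, fun h => (mem_preL.1 h).2⟩
  le := preL_mono hp.le

/-- subgroups of finite index of a member of the tower meet every coset of `B` -/
theorem MTower.fin_mul {R : Subgroup (L ⧸ B.subgroupOf L)}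
    (hT : MTower.{u, v, w} R) (hB : B ≤ L) (hL : IsClosed (L : Set G)) :
    ∀ M : Subgroup G, FiNor M (preL L B R) → ∀ s ∈ preL L B R, ∃ b ∈ B, s * b ∈ M := by
  induction hT with
  | bot =>
    intro M hM s hs
    rw [preL_bot hB] at hs
    exact ⟨s⁻¹, B.inv_mem hs, by rw [mul_inv_cancel]; exact M.one_mem⟩
  | vec N N' m p hN hp hK h ih =>
    intro M hM s hs
    have hp' := hp.pre (B := B)
    obtain ⟨t, ht, hts⟩ := (hM.layer hp').surj (extL L B p s)
    have htN := hM.le ht
    have hc' : IsClosed (preL L B N' : Set G) :=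
      hp'.isClosed_ker (preL_closed hL hN)
    have h1 : t⁻¹ * s ∈ preL L B N' := by
      have h2 := (preL L B N).mul_mem ((preL L B N).inv_mem htN) hs
      refine (hp'.ker _ h2).1 ?_
      rw [hp'.p_inv_mul htN hs, hts, sub_self]
    obtain ⟨b, hb, hbM⟩ := ih (M ⊓ preL L B N') (hM.inf hp'.le hc') _ h1
    refine ⟨b, hb, ?_⟩
    have h3 := M.mul_mem ht hbM.1
    have e : t * (t⁻¹ * s * b) = s * b := by group
    rwa [e] at h3
  | tor N N' m p hN hp hK h ih =>
    intro M hM s hs
    have hp' := hp.pre (B := B)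
    obtain ⟨t, ht, hts⟩ := (hM.tlayer hp').surj (extL L B p s)
    have htN := hM.le ht
    have hc' : IsClosed (preL L B N' : Set G) :=
      hp'.isClosed_ker (preL_closed hL hN)
    have h1 : t⁻¹ * s ∈ preL L B N' := hp'.ker_of_eq htN hs hts
    obtain ⟨b, hb, hbM⟩ := ih (M ⊓ preL L B N') (hM.inf hp'.le hc') _ h1
    refine ⟨b, hb, ?_⟩
    have h3 := M.mul_mem ht hbM.1
    have e : t * (t⁻¹ * s * b) = s * b := by group
    rwa [e] at h3

variable [T2Space G] [SecondCountableTopology G] [LocallyCompactSpace G]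

/-- open subgroups meet every coset of `B` in a member of the tower -/
theorem MTower.open_mul {R : Subgroup (L ⧸ B.subgroupOf L)}
    (hT : MTower.{u, v, w} R) (hB : B ≤ L) (hL : IsClosed (L : Set G)) (U : Subgroup G)
    (hU : IsOpen (U : Set G)) : ∀ s ∈ preL L B R, ∃ b ∈ B, s * b ∈ U := by
  induction hT with
  | bot =>
    intro s hs
    rw [preL_bot hB] at hs
    exact ⟨s⁻¹, B.inv_mem hs, by rw [mul_inv_cancel]; exact U.one_mem⟩
  | vec N N' m p hN hp hK h ih =>
    intro s hs
    have hp' := hp.pre (B := B)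
    obtain ⟨δ, hδ, hδ2⟩ := hp'.exists_near (preL_closed hL hN) (hU.mem_nhds U.one_mem)
    obtain ⟨n, hn⟩ := exists_nat_gt (‖extL L B p s‖ / δ)
    have hn0 : (0 : ℝ) < n := lt_of_le_of_lt (by positivity) hn
    obtain ⟨t, htN, htU, htp⟩ := hδ2 ((n : ℝ)⁻¹ • extL L B p s) (by
      rw [norm_smul, norm_inv, Real.norm_of_nonneg hn0.le, inv_mul_lt_iff₀ hn0]
      rwa [div_lt_iff₀ hδ] at hn)
    have htn : extL L B p (t ^ n) = extL L B p s := by
      rw [hp'.p_pow htN, htp, smul_smul, mul_inv_cancel₀ hn0.ne', one_smul]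
    have htnN := (preL L B N).pow_mem htN n
    have h1 : (t ^ n)⁻¹ * s ∈ preL L B N' := by
      have h2 := (preL L B N).mul_mem ((preL L B N).inv_mem htnN) hs
      refine (hp'.ker _ h2).1 ?_
      rw [hp'.p_inv_mul htnN hs, htn, sub_self]
    obtain ⟨b, hb, hbU⟩ := ih _ h1
    refine ⟨b, hb, ?_⟩
    have h3 := U.mul_mem (U.pow_mem htU n) hbU
    have e : t ^ n * ((t ^ n)⁻¹ * s * b) = s * b := by group
    rwa [e] at h3
  | tor N N' m p hN hp hK h ih =>
    intro s hs
    have hp' := hp.pre (B := B)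
    obtain ⟨δ, hδ, hδ2⟩ := hp'.exists_near (preL_closed hL hN) (hU.mem_nhds U.one_mem)
    obtain ⟨n, hn⟩ := exists_nat_gt (‖extL L B p s‖ / δ)
    have hn0 : (0 : ℝ) < n := lt_of_le_of_lt (by positivity) hn
    obtain ⟨t, htN, htU, htp⟩ := hδ2 ((n : ℝ)⁻¹ • extL L B p s) (by
      rw [norm_smul, norm_inv, Real.norm_of_nonneg hn0.le, inv_mul_lt_iff₀ hn0]
      rwa [div_lt_iff₀ hδ] at hn)
    have htnN := (preL L B N).pow_mem htN n
    have h1 : (t ^ n)⁻¹ * s ∈ preL L B N' := by
      refine hp'.ker_of_eq htnN hs fun q => ?_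
      rw [hp'.pow q htN, htp, ← onchar_nat_mul, real_inner_smul_right, ← mul_assoc,
        mul_inv_cancel₀ hn0.ne', one_mul]
      rfl
    obtain ⟨b, hb, hbU⟩ := ih _ h1
    refine ⟨b, hb, ?_⟩
    have h3 := U.mul_mem (U.pow_mem htU n) hbU
    have e : t ^ n * ((t ^ n)⁻¹ * s * b) = s * b := by group
    rwa [e] at h3

end top

end Pool.Agent.AbCoc
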