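import Pool.Agent.Lib_MP_418a80_tl.TDefs2

/-!
# [TL]: vector layers in the normal descent for unitary eigenvectors
-/

set_option autoImplicit false
set_option linter.unusedVariables false
set_option linter.unusedSectionVars false

open Topology Filter MeasureTheory
open scoped RealInnerProductSpace ComplexConjugate

namespace Pool.Agent.AbCoc

universe u v w z

section
variable {A : Type u} [CStarAlgebra A] {K : Type v} [NormedAddCommGroup K]
  [InnerProductSpace ℂ K] [CompleteSpace K]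
  {G : Type w} [Group G] [TopologicalSpace G] {T : TrAlg A K} (S : TrAct G T)

/-- `Ad w ∘ α_g` intertwines on `N`, if `w` is an eigenvector of `N` -/
theorem TrAct.tw_bw_eigW {N : Subgroup G} {w : A} (h1 : star w * w = 1) (h2 : w * star w = 1)
    (hw : S.EigW N w) (g : G) (hg : ∀ s, s ∈ N ↔ g * s * g⁻¹ ∈ N) : S.Tw N g (S.bw h1 h2 g) := by
  have h3 := S.twc_bw_e (N := N) h1 h2 g fun t ht _ => hw t ht
  exact ⟨h3.iso, fun s hs a => h3.cov s hs ((hg s).1 hs) a⟩

/-- `α_h` and `Ad w` commute, if `w` is an eigenvector of `h` -/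
theorem TrAct.bw_shift {N : Subgroup G} {w : A} (h1 : star w * w = 1) (h2 : w * star w = 1)
    (hw : S.EigW N w) (g : G) {h : G} (hh : h ∈ N) (a : A) :
    S.α h (S.bw h1 h2 g a) = S.bw h1 h2 (h * g) a := by
  obtain ⟨c, hc⟩ := hw h hh
  have hc1 := TrAct.norm_eig (TrAct.ne_zero_of_unitary T h1) hc
  rw [S.bw_apply, S.bw_apply, map_mul, map_mul, map_star, hc, TrAct.ad_smul hc1, ← S.mul]

/-- normalisation is preserved by shifts -/
theorem nor_shift {N : Subgroup G} {g : G} (hg : ∀ s, s ∈ N ↔ g * s * g⁻¹ ∈ N) {h : G}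
    (hh : h ∈ N) : ∀ s, s ∈ N ↔ (h⁻¹ * g) * s * (h⁻¹ * g)⁻¹ ∈ N := by
  intro s
  have hh' : h⁻¹ ∈ N := N.inv_mem hh
  have e : h⁻¹ * g * s * (h⁻¹ * g)⁻¹ = h⁻¹ * (g * s * g⁻¹) * h := by group
  rw [hg s, e]
  constructor
  · intro hs
    exact N.mul_mem (N.mul_mem hh' hs) hh
  · intro hs
    have h3 := N.mul_mem (N.mul_mem hh hs) hh'
    have e2 : h * (h⁻¹ * (g * s * g⁻¹) * h) * h⁻¹ = g * s * g⁻¹ := by group
    rwa [e2] at h3

end

section
variable {A : Type u} [CStarAlgebra A] {K : Type v} [NormedAddCommGroup K]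
  [InnerProductSpace ℂ K] [CompleteSpace K]
  {G : Type w} [Group G] [TopologicalSpace G] [IsTopologicalGroup G] [T2Space G]
  [SecondCountableTopology G] [LocallyCompactSpace G] {T : TrAlg A K} (S : TrAct G T)

/-- vector layers, normal case, unitary eigenvectors -/
theorem TrAct.nDescE_of_layer (m : ℕ) (N N' : Subgroup G) (hN : IsClosed (N : Set G))
    (p : G → EuclideanSpace ℝ (Fin m)) (hp : IsLayer N N' p)
    (hkey : (S.sub N).Key) (heig : S.EigN N p) : S.NDescE N N' := by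
  intro w h1 h2 hw g hg hfix
  have hTw := S.tw_bw_eigW h1 h2 hw g hg
  have hC := S.fixC_of_fixU N hN _ hTw.iso hfix
  have hpsi := S.psi_zero N N' hN p hp heig _ g hg hTw hC
  obtain ⟨c, hc⟩ := S.exists_scalE N N' hN hkey p hp heig _ g hg hTw hpsi hC
  obtain ⟨v, hv⟩ := S.exists_v N N' hN p hp heig _ hTw.iso hC c hc
  obtain ⟨h, hh, hhv⟩ := hp.surj v
  have hE := S.scalE_one N p _ c hc h hh fun q => by rw [hv, pch, hhv]
  have hh' : h⁻¹ ∈ N := N.inv_mem hh
  have hE' : S.ScalE N p (S.bw h1 h2 (h⁻¹ * g)) fun _ => 1 := by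
    intro ε hε
    obtain ⟨D, κ, hD, hDN, hκ, h3⟩ := hE ε hε
    exact ⟨D, κ, hD, hDN, hκ, fun q x hx => by
      rw [← S.bw_shift h1 h2 hw g hh']; exact h3 q x hx⟩
  have hg' := nor_shift hg hh
  have hpsi' : ∀ s ∈ N, p ((h⁻¹ * g) * s * (h⁻¹ * g)⁻¹) = p s := by
    intro s hs
    have hgs : g * s * g⁻¹ ∈ N := (hg s).1 hs
    have e : h⁻¹ * g * s * (h⁻¹ * g)⁻¹ = h⁻¹ * (g * s * g⁻¹) * h := by group
    have hpi : p h⁻¹ + p h = 0 := by
      have h4 := hp.mul _ hh' _ hh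
      rw [inv_mul_cancel] at h4
      rw [← h4, hp.p_one_c]
    rw [e, hp.mul _ (N.mul_mem hh' hgs) _ hh, hp.mul _ hh' _ hgs, hpsi s hs]
    calc p h⁻¹ + p s + p h = (p h⁻¹ + p h) + p s := by abel
      _ = p s := by rw [hpi, zero_add]
  refine ⟨h, hh, fun s => ?_, S.fixU_of_scalE m N N' hN p hp heig _ (h⁻¹ * g) hg'
    (S.tw_bw_eigW h1 h2 hw _ hg') hpsi' hE'⟩
  constructor
  · intro hs
    have hsN := hp.le hs
    rw [← hp.ker _ ((hg' s).1 hsN), hpsi' s hsN, hp.ker s hsN]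
    exact hs
  · intro hs
    have hsN : s ∈ N := (hg' s).2 (hp.le hs)
    rw [← hp.ker s hsN, ← hpsi' s hsN, hp.ker _ ((hg' s).1 hsN)]
    exact hs

end

end Pool.Agent.AbCoc
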