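import Pool.Agent.Lib_MP_418a80_tl.TDefs2

/-!
# MP_418a80_an, [TL]: the scalars of `β` on the late eigenelements of a torus layer are a point of
the torus
-/

set_option autoImplicit false
set_option linter.unusedVariables false
set_option linter.unusedSectionVars false

open Topology Filter MeasureTheory
open scoped RealInnerProductSpace ComplexConjugate

namespace Pool.Agent.AbCoc

universe u v w z

theorem norm_ch' (t : ℝ) : ‖ch t‖ = 1 := by
  unfold ch
  rw [Complex.norm_exp_ofReal_mul_I]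

theorem ch_add' (s t : ℝ) : ch (s + t) = ch s * ch t := by
  unfold ch
  rw [← Complex.exp_add]
  push_cast
  ring_nf

/-- the characters of `ℤ^m` are the points of `𝕋^m` -/
theorem exists_inner_of_charZ {m : ℕ} (c : (Fin m → ℤ) → ℂ) (h1 : ∀ q, ‖c q‖ = 1)
    (hadd : ∀ q q', c (q + q') = c q * c q') :
    ∃ v : EuclideanSpace ℝ (Fin m), ∀ q, c q = ch ⟪zv q, v⟫ := by
  obtain ⟨v, hv⟩ : ∃ v : EuclideanSpace ℝ (Fin m), ∀ i,
      ⟪EuclideanSpace.basisFun (Fin m) ℝ i, v⟫ = Complex.arg (c (Pi.single i 1)) := by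
    refine ⟨WithLp.toLp 2 fun i => Complex.arg (c (Pi.single i 1)), fun i => ?_⟩
    rw [EuclideanSpace.basisFun_apply, EuclideanSpace.inner_single_left]
    simp
  have hc : ∀ q, c q ∈ Submonoid.unitSphere ℂ := fun q => mem_sphere_zero_iff_norm.2 (h1 q)
  have hc0 : c 0 = 1 := by
    have h2 := hadd 0 0
    rw [add_zero] at h2
    have h3 : c 0 ≠ 0 := fun h => by
      have := h1 0
      rw [h, norm_zero] at this
      exact zero_ne_one this
    exact (mul_right_cancel₀ h3 (by rw [one_mul]; exact h2)).symm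
  obtain ⟨f, hf⟩ : ∃ f : (Fin m → ℤ) →+ Additive Circle, ∀ q, ((f q).toMul : ℂ) = c q :=
    ⟨{ toFun := fun q => Additive.ofMul (⟨c q, hc q⟩ : Circle)
       map_zero' := by
         apply Additive.toMul.injective
         apply Circle.ext
         exact hc0
       map_add' := fun q q' => by
         apply Additive.toMul.injective
         apply Circle.ext
         exact hadd q q' }, fun q => rfl⟩
  obtain ⟨g, hg⟩ : ∃ g : (Fin m → ℤ) →+ Additive Circle, ∀ q,
      ((g q).toMul : ℂ) = ch ⟪zv q, v⟫ :=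
    ⟨{ toFun := fun q => Additive.ofMul (Circle.exp ⟪zv q, v⟫)
       map_zero' := by
         apply Additive.toMul.injective
         change Circle.exp ⟪zv (0 : Fin m → ℤ), v⟫ = 1
         rw [zv_zero, inner_zero_left, Circle.exp_zero]
       map_add' := fun q q' => by
         apply Additive.toMul.injective
         change Circle.exp ⟪zv (q + q'), v⟫ = Circle.exp ⟪zv q, v⟫ * Circle.exp ⟪zv q', v⟫
         rw [zv_add, inner_add_left, Circle.exp_add] }, fun q => by
      change ((Circle.exp ⟪zv q, v⟫ : Circle) : ℂ) = ch ⟪zv q, v⟫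
      rw [Circle.coe_exp]
      rfl⟩
  have hfg : f = g := by
    apply AddMonoidHom.functions_ext'
    intro i
    apply AddMonoidHom.ext_int
    apply Additive.toMul.injective
    apply Circle.ext
    have e1 : (((f.comp (AddMonoidHom.single (fun _ : Fin m => ℤ) i)) 1).toMul : ℂ)
        = c (Pi.single i 1) := hf _
    have e2 : (((g.comp (AddMonoidHom.single (fun _ : Fin m => ℤ) i)) 1).toMul : ℂ)
        = ch ⟪zv (Pi.single i 1), v⟫ := hg _
    rw [e1, e2]
    have e3 : zv (Pi.single i (1 : ℤ)) = EuclideanSpace.basisFun (Fin m) ℝ i := by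
      unfold zv
      rw [Finset.sum_eq_single i]
      · rw [Pi.single_eq_same, Int.cast_one, one_smul]
      · intro j _ hj
        rw [Pi.single_eq_of_ne hj, Int.cast_zero, zero_smul]
      · intro h
        exact absurd (Finset.mem_univ i) h
    rw [e3, hv, onchar_arg (h1 _)]
  refine ⟨v, fun q => ?_⟩
  rw [← hf, ← hg, hfg]

section
variable {A : Type u} [CStarAlgebra A] {K : Type v} [NormedAddCommGroup K]
  [InnerProductSpace ℂ K] [CompleteSpace K]
  {G : Type w} [Group G] [TopologicalSpace G] {T : TrAlg A K} (S : TrAct G T)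

/-- a scalar which is small against an element of `2`-norm `≥ 1/8` is small -/
private theorem tv_small {T : TrAlg A K} (z : ℂ) (x : A) (ε : ℝ) (hx : 1 ≤ 64 * ‖T.ι x‖ ^ 2)
    (h : ‖T.ι (z • x)‖ ≤ ε) : ‖z‖ ≤ 8 * ε := by
  rw [map_smul, norm_smul] at h
  have h1 : 1 / 8 ≤ ‖T.ι x‖ := by
    by_contra hc
    push Not at hc
    nlinarith [norm_nonneg (T.ι x)]
  nlinarith [norm_nonneg z]

theorem TrAct.exists_vZ {m : ℕ} (N : Subgroup G) (p : G → EuclideanSpace ℝ (Fin m))
    (heig : S.EigZ N p) (β : A →⋆ₐ[ℂ] A) (hβ : ∀ a, ‖T.ι (β a)‖ = ‖T.ι a‖)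
    (c : (Fin m → ℤ) → ℂ) (hc : S.ScalZ N p β c) :
    ∃ v : EuclideanSpace ℝ (Fin m), ∀ q, c q = ch ⟪zv q, v⟫ := by
  have hβn : ∀ a, ‖β a‖ ≤ ‖a‖ := fun a => NonUnitalStarAlgHom.norm_apply_le β a
  -- modulus one
  have h1 : ∀ q, ‖c q‖ = 1 := by
    intro q
    by_contra hne
    obtain ⟨η, hη⟩ : ∃ η, η = |‖c q‖ - 1| := ⟨_, rfl⟩
    have hη0 : 0 < η := by rw [hη]; exact abs_pos.2 (sub_ne_zero.2 hne)
    obtain ⟨D, κ, hD, hDN, hκ, hs⟩ := hc (η / 4) (by linarith)
    obtain ⟨x, hx, hx1⟩ := heig.exists_one q D hD hDN κ hκ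
    have h2 := hs q x hx
    rw [map_sub, map_smul] at h2
    have h3 := (abs_norm_sub_norm_le (T.ι (β x)) (c q • T.ι x)).trans h2
    rw [hβ, norm_smul] at h3
    have h4 : ‖T.ι x‖ - ‖c q‖ * ‖T.ι x‖ = (1 - ‖c q‖) * ‖T.ι x‖ := by ring
    rw [h4, abs_mul, abs_sub_comm, ← hη, abs_of_nonneg (norm_nonneg _)] at h3
    have h5 : 1 / 3 ≤ ‖T.ι x‖ := by
      by_contra hcc
      push Not at hcc
      nlinarith [norm_nonneg (T.ι x)]
    nlinarith
  -- additivity
  have hadd : ∀ q q', c (q + q') = c q * c q' := by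
    intro q q'
    by_contra hne
    obtain ⟨η, hη⟩ : ∃ η, η = ‖c (q + q') - c q * c q'‖ := ⟨_, rfl⟩
    have hη0 : 0 < η := by rw [hη]; exact norm_pos_iff.2 (sub_ne_zero.2 hne)
    obtain ⟨ε, hε⟩ : ∃ ε, ε = η / 48 := ⟨_, rfl⟩
    have hε0 : 0 < ε := by rw [hε]; positivity
    obtain ⟨D, κ, hD, hDN, hκ, hs⟩ := hc ε hε0
    obtain ⟨x', hx', hx'1⟩ := heig.exists_one q' D hD hDN (κ / 2) (by linarith)
    obtain ⟨x, hx, hxa⟩ := heig q D hD hDN (κ / 2) (by linarith) Unit fun _ => x'
    have hxx := hxa ()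
    have hmul : S.NE (pch p (zv (q + q'))) D κ (x * x') := by
      have := hx.pmul hx'
      rwa [add_halves, ← zv_add] at this
    have e1 := hs _ _ hmul
    have e2 := hs q x (hx.mono subset_rfl (by linarith))
    have e3 := hs q' x' (hx'.mono subset_rfl (by linarith))
    have e4 : (c (q + q') - c q * c q') • (x * x')
        = -(β (x * x') - c (q + q') • (x * x')) + ((β x - c q • x) * β x'
          + (c q • x) * (β x' - c q' • x')) := by
      rw [map_mul, sub_mul, mul_sub, smul_mul_smul_comm, sub_smul]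
      abel
    have e5 : ‖T.ι ((c (q + q') - c q * c q') • (x * x'))‖ ≤ ε + (ε + ε) := by
      rw [e4, map_add, map_add, map_neg]
      refine (norm_add_le _ _).trans (add_le_add ?_ ((norm_add_le _ _).trans (add_le_add ?_ ?_)))
      · rw [norm_neg]
        exact e1
      · refine (T.mul_le' _ _).trans ?_
        calc ‖T.ι (β x - c q • x)‖ * ‖β x'‖ ≤ ε * 1 :=
              mul_le_mul e2 ((hβn x').trans hx'.le) (norm_nonneg _) hε0.le
          _ = ε := mul_one ε
      · refine (T.mul_le _ _).trans ?_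
        have e6 : ‖c q • x‖ ≤ 1 := by
          rw [norm_smul, h1, one_mul]
          exact hx.le
        calc ‖c q • x‖ * ‖T.ι (β x' - c q' • x')‖ ≤ 1 * ε :=
              mul_le_mul e6 e3 (norm_nonneg _) zero_le_one
          _ = ε := one_mul ε
    have e7 := tv_small (T := T) _ _ _ (by linarith) e5
    rw [← hη, hε] at e7
    linarith
  exact exists_inner_of_charZ c h1 hadd

/-- after the correction by `h`, the scalars are `1` -/
theorem TrAct.scalZ_one {m : ℕ} (N : Subgroup G) (p : G → EuclideanSpace ℝ (Fin m))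
    (β : A → A) (c : (Fin m → ℤ) → ℂ) (hc : S.ScalZ N p β c) (h : G) (hh : h ∈ N)
    (hv : ∀ q, c q = pch p (zv q) h) : S.ScalZ N p (fun a => S.α h⁻¹ (β a)) (fun _ => 1) := by
  intro ε hε
  obtain ⟨D, κ, hD, hDN, hκ, hs⟩ := hc (ε / 2) (by linarith)
  refine ⟨D ∪ {h}, min κ (ε / 2), hD.union isCompact_singleton,
    Set.union_subset hDN (Set.singleton_subset_iff.2 hh), lt_min hκ (by linarith), fun q x hx => ?_⟩
  have e1 := hs q x (hx.mono Set.subset_union_left (min_le_left _ _))
  have e2 := (hx.ne h (Or.inr rfl)).trans (min_le_right _ _)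
  rw [one_smul, ← S.norm_map h, map_sub (S.α h), S.apply_inv]
  have e3 : β x - S.α h x = (β x - c q • x) - (S.α h x - pch p (zv q) h • x) := by
    rw [hv]
    abel
  rw [e3, map_sub]
  refine (norm_sub_le _ _).trans ?_
  linarith

end

end Pool.Agent.AbCoc
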