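import Pool.Agent.Lib_MP_418a80_tl.TBa

/-!
# [TL] part (B), b: cells with mesh `2π/M` (no boundary)
-/

set_option autoImplicit false
set_option linter.unusedVariables false
set_option linter.unusedSectionVars false

open Topology Filter MeasureTheory
open scoped RealInnerProductSpace ComplexConjugate Pointwise

namespace Pool.Agent.AbCoc

universe u v w z

/-- sums over the box of periodic functions are invariant under shifts -/
theorem sum_boxF_shift {B : Type*} [AddCommMonoid B] {m M : ℕ} [NeZero M]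
    (F : (Fin m → ℤ) → B) (hF : ∀ j k : Fin m → ℤ, F (j + (M : ℤ) • k) = F j) (n : Fin m → ℤ) :
    ∑ j ∈ boxF m M, F (j + n) = ∑ j ∈ boxF m M, F j := by
  have hM : (0 : ℤ) < M := Int.natCast_pos.2 (Nat.pos_of_ne_zero (NeZero.ne M))
  have hmod : ∀ j : Fin m → ℤ, F (fun i => j i % (M : ℤ)) = F j := by
    intro j
    have h1 := hF (fun i => j i % (M : ℤ)) (fun i => j i / (M : ℤ))
    rw [← h1]
    congr 1
    funext i
    rw [Pi.add_apply, Pi.smul_apply, smul_eq_mul]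
    exact Int.emod_add_mul_ediv _ _
  refine Finset.sum_bij' (fun j _ => fun i => (j i + n i) % (M : ℤ))
    (fun j _ => fun i => (j i - n i) % (M : ℤ)) ?_ ?_ ?_ ?_ ?_
  · intro j _
    rw [mem_boxF]
    exact fun i => ⟨Int.emod_nonneg _ hM.ne', Int.emod_lt_of_pos _ hM⟩
  · intro j _
    rw [mem_boxF]
    exact fun i => ⟨Int.emod_nonneg _ hM.ne', Int.emod_lt_of_pos _ hM⟩
  · intro j hj
    rw [mem_boxF] at hj
    funext i
    change ((j i + n i) % (M : ℤ) - n i) % (M : ℤ) = j i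
    rw [Int.emod_sub_emod, add_sub_cancel_right]
    exact Int.emod_eq_of_lt (hj i).1 (hj i).2
  · intro j hj
    rw [mem_boxF] at hj
    funext i
    change ((j i - n i) % (M : ℤ) + n i) % (M : ℤ) = j i
    rw [Int.emod_add_emod, sub_add_cancel]
    exact Int.emod_eq_of_lt (hj i).1 (hj i).2
  · intro j _
    exact (hmod (j + n)).symm

section
variable {A : Type u} [CStarAlgebra A] {m M : ℕ} [NeZero M]

theorem boxChs_period (c : (boxChs m M).C) (k : Fin m → ℤ) :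
    (boxChs m M).χ c ((M : ℤ) • k) = 1 := by
  change ∏ i, ZMod.stdAddChar ((c : Fin m → ZMod M) i * ((((M : ℤ) • k) i : ℤ) : ZMod M)) = 1
  refine Finset.prod_eq_one fun i _ => ?_
  rw [Pi.smul_apply, smul_eq_mul]
  push_cast
  rw [ZMod.natCast_self, zero_mul, mul_zero, AddChar.map_zero_eq_one]

/-- a cyclic shift of a periodic grid function is a phase -/
theorem boxChs_cyc (zz : (Fin m → ℤ) → A)
    (hz : ∀ j k : Fin m → ℤ, zz (j + (M : ℤ) • k) = zz j) (n : Fin m → ℤ) (c : (boxChs m M).C) :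
    (boxChs m M).X (fun j => zz (j + n)) c
      = conj ((boxChs m M).χ c n) • (boxChs m M).X zz c := by
  unfold Chs.X
  rw [smul_comm]
  congr 1
  have h1 := sum_boxF_shift (M := M) (fun j => (boxChs m M).χ c j • zz j) (fun j k => by
    rw [(boxChs m M).add, boxChs_period, mul_one, hz]) n
  rw [← h1, Finset.smul_sum]
  refine Finset.sum_congr rfl fun j _ => ?_
  rw [(boxChs m M).add, smul_smul]
  congr 1
  have h2 := (boxChs m M).conj_mul_self c n
  calc (boxChs m M).χ c j = (boxChs m M).χ c j * (conj ((boxChs m M).χ c n) * (boxChs m M).χ c n) := by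
        rw [h2, mul_one]
    _ = _ := by ring

end

section
variable {V : Type z} [NormedAddCommGroup V] [InnerProductSpace ℝ V] {m : ℕ}
  (b : OrthonormalBasis (Fin m) ℝ V)
variable {A : Type u} [CStarAlgebra A] {K : Type v} [NormedAddCommGroup K]
  [InnerProductSpace ℂ K] [CompleteSpace K]
variable {G : Type w} [Group G] [TopologicalSpace G] {T : TrAlg A K} (S : TrAct G T)
variable {σ : V → G} {N : ℕ} [NeZero N] {δ : ℝ} {e : A}

/-- near-eigen estimate for the cells, cyclic case -/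
theorem TrAct.bcell_eig_cyc (hδ : 0 < δ) (p : G → V) (g : G)
    (n : Fin m → ℤ) (η : ℝ)
    (hper : ∀ j k : Fin m → ℤ, σ (gridV b δ (j + (N : ℤ) • k)) = σ (gridV b δ j))
    (H1 : ∀ j ∈ boxF m N, ‖T.ι (S.α g (S.α (σ (gridV b δ j)) e)
      - S.α (σ (gridV b δ (j + n))) e)‖ ≤ η)
    (H2 : ∀ j ∈ boxF m N, ∀ i, ‖T.ι (S.α (σ (gridV b δ (j + Pi.single i 1))) e
      - S.α (σ (gridV b δ j)) e)‖ ≤ η)
    (H3 : ∀ i, 0 ≤ ⟪b i, p g⟫ - δ * n i) (H4 : ∀ i, ⟪b i, p g⟫ - δ * n i ≤ δ) :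
    ∑ c : Fin m → ZMod N, ‖T.ι (S.α g (S.bcell b σ N δ e c)
      - pch p (lamV b N δ c) g • S.bcell b σ N δ e c)‖ ^ 2
      ≤ 2 * η ^ 2 + 2 * (m : ℝ) ^ 2 * η ^ 2 := by
  classical
  have hN : (0 : ℝ) < N := Nat.cast_pos.2 (Nat.pos_of_ne_zero (NeZero.ne N))
  obtain ⟨r, hr⟩ : ∃ r : ℝ, r = (boxChs m N).r := ⟨_, rfl⟩
  have hrN : r ^ 2 * (N : ℝ) ^ m = 1 := by rw [hr]; exact boxChs_r_sq
  obtain ⟨zz, hzz⟩ : ∃ zz : (Fin m → ℤ) → A, zz = fun j => (r : ℂ) • S.α (σ (gridV b δ j)) e :=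
    ⟨_, rfl⟩
  have hY : ∀ c : Fin m → ZMod N, S.bcell b σ N δ e c = (boxChs m N).X zz c := by
    intro c
    rw [hzz, hr]
    rfl
  have hzper : ∀ j k : Fin m → ℤ, zz (j + (N : ℤ) • k) = zz j := by
    intro j k
    rw [hzz]
    change (r : ℂ) • S.α (σ (gridV b δ (j + (N : ℤ) • k))) e = _
    rw [hper]
  have hsmall : ∀ (f f' : (Fin m → ℤ) → A), (∀ j ∈ boxF m N, ‖T.ι (f j - f' j)‖ ≤ η) →
      ∑ j ∈ boxF m N, ‖T.ι ((r : ℂ) • f j - (r : ℂ) • f' j)‖ ^ 2 ≤ η ^ 2 := by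
    intro f f' hff
    have h1 : ∀ j ∈ boxF m N, ‖T.ι ((r : ℂ) • f j - (r : ℂ) • f' j)‖ ^ 2 ≤ r ^ 2 * η ^ 2 := by
      intro j hj
      rw [← smul_sub, T.norm_smul_sq, Complex.norm_real, Real.norm_eq_abs, sq_abs]
      refine mul_le_mul_of_nonneg_left ?_ (sq_nonneg _)
      exact pow_le_pow_left₀ (norm_nonneg _) (hff j hj) 2
    refine (Finset.sum_le_sum h1).trans (le_of_eq ?_)
    rw [Finset.sum_const, card_boxF, nsmul_eq_mul]
    push_cast
    calc (N : ℝ) ^ m * (r ^ 2 * η ^ 2) = (r ^ 2 * (N : ℝ) ^ m) * η ^ 2 := by ring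
      _ = η ^ 2 := by rw [hrN, one_mul]
  -- term 1
  have t1 : ∑ c : Fin m → ZMod N, ‖T.ι (S.α g ((boxChs m N).X zz c)
      - conj ((boxChs m N).χ c n) • (boxChs m N).X zz c)‖ ^ 2 ≤ η ^ 2 := by
    have e0 : ∀ c : Fin m → ZMod N, S.α g ((boxChs m N).X zz c)
        = (boxChs m N).X (fun j => S.α g (zz j)) c := fun c => (boxChs m N).map_X _ _ _
    have e2 : ∀ c : Fin m → ZMod N, conj ((boxChs m N).χ c n) • (boxChs m N).X zz c
        = (boxChs m N).X (fun j => zz (j + n)) c := fun c => (boxChs_cyc zz hzper n c).symm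
    simp only [e0, e2]
    refine le_trans (le_of_eq ((boxChs m N).sum_norm_sq_sub T _ _)) ?_
    have e1 : ∀ j, S.α g (zz j) = (r : ℂ) • S.α g (S.α (σ (gridV b δ j)) e) := by
      intro j
      rw [hzz]
      exact map_smul _ _ _
    simp only [e1]
    rw [hzz]
    exact hsmall _ _ H1
  -- unit shifts
  have t3 : ∀ i, ∑ c : Fin m → ZMod N, ‖T.ι ((conj ((boxChs m N).χ c (Pi.single i 1)) - 1)
      • (boxChs m N).X zz c)‖ ^ 2 ≤ η ^ 2 := by
    intro i
    have e2 : ∀ c : Fin m → ZMod N, (conj ((boxChs m N).χ c (Pi.single i 1)) - 1)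
        • (boxChs m N).X zz c
        = (boxChs m N).X (fun j => zz (j + Pi.single i 1)) c - (boxChs m N).X zz c := by
      intro c
      rw [sub_smul, one_smul]
      exact congrArg (· - _) (boxChs_cyc zz hzper _ c).symm
    simp only [e2]
    refine le_trans (le_of_eq ((boxChs m N).sum_norm_sq_sub T _ _)) ?_
    rw [hzz]
    exact hsmall _ _ fun j hj => H2 j hj i
  -- the phases
  have hph : ∀ c : Fin m → ZMod N, ‖conj ((boxChs m N).χ c n) - pch p (lamV b N δ c) g‖ ^ 2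
      ≤ m * ∑ i, ‖conj ((boxChs m N).χ c (Pi.single i 1)) - 1‖ ^ 2 := by
    intro c
    have e1 : pch p (lamV b N δ c) g = conj ((boxChs m N).χ c n)
        * ch (∑ i, boxTh N δ c i * (⟪b i, p g⟫ - δ * n i)) := by
      rw [boxChs_conj hδ.ne', ← ch_add, ← Finset.sum_add_distrib]
      unfold pch
      rw [inner_lamV]
      congr 1
      refine Finset.sum_congr rfl fun i _ => ?_
      ring
    have e2 : conj ((boxChs m N).χ c n) - pch p (lamV b N δ c) g = -(conj ((boxChs m N).χ c n)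
        * (ch (∑ i, boxTh N δ c i * (⟪b i, p g⟫ - δ * n i)) - 1)) := by
      rw [e1]
      ring
    have e3 : ‖conj ((boxChs m N).χ c n)‖ = 1 := by
      rw [RCLike.norm_conj]
      exact (boxChs m N).unit c n
    have e4 : ‖conj ((boxChs m N).χ c n) - pch p (lamV b N δ c) g‖
        ≤ ∑ i, ‖conj ((boxChs m N).χ c (Pi.single i 1)) - 1‖ := by
      rw [e2, norm_neg, norm_mul, e3, one_mul]
      refine (on_ch_sum_le _ _).trans (Finset.sum_le_sum fun i _ => ?_)
      have e5 : conj ((boxChs m N).χ c (Pi.single i 1)) = ch (boxTh N δ c i * δ) := by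
        rw [boxChs_conj hδ.ne']
        congr 1
        rw [Finset.sum_eq_single i]
        · rw [Pi.single_eq_same]
          push_cast
          ring
        · intro i' _ hi'
          rw [Pi.single_eq_of_ne hi']
          simp
        · intro h
          exact absurd (Finset.mem_univ i) h
      rw [e5]
      have e6 : boxTh N δ c i * (⟪b i, p g⟫ - δ * n i)
          = ((⟪b i, p g⟫ - δ * n i) / δ) * (boxTh N δ c i * δ) := by
        field_simp
      rw [e6]
      exact norm_ch_sub_one_mono (abs_boxTh_le hδ c i) (div_nonneg (H3 i) hδ.le)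
        ((div_le_one hδ).2 (H4 i))
    refine (pow_le_pow_left₀ (norm_nonneg _) e4 2).trans ?_
    have h7 := sq_sum_le_card_mul_sum_sq (s := (Finset.univ : Finset (Fin m)))
      (f := fun i => ‖conj ((boxChs m N).χ c (Pi.single i 1)) - 1‖)
    rw [Finset.card_univ, Fintype.card_fin] at h7
    exact h7
  have t4 : ∑ c : Fin m → ZMod N, ‖T.ι ((conj ((boxChs m N).χ c n) - pch p (lamV b N δ c) g)
      • (boxChs m N).X zz c)‖ ^ 2 ≤ m * (m * η ^ 2) := by
    calc ∑ c : Fin m → ZMod N, ‖T.ι ((conj ((boxChs m N).χ c n) - pch p (lamV b N δ c) g)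
          • (boxChs m N).X zz c)‖ ^ 2
        ≤ ∑ c : Fin m → ZMod N, m * ∑ i, ‖T.ι ((conj ((boxChs m N).χ c (Pi.single i 1)) - 1)
          • (boxChs m N).X zz c)‖ ^ 2 := by
          refine Finset.sum_le_sum fun c _ => ?_
          rw [T.norm_smul_sq]
          simp only [T.norm_smul_sq]
          rw [← Finset.sum_mul, ← mul_assoc]
          exact mul_le_mul_of_nonneg_right (hph c) (sq_nonneg _)
      _ = m * ∑ i, ∑ c : Fin m → ZMod N, ‖T.ι ((conj ((boxChs m N).χ c (Pi.single i 1)) - 1)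
          • (boxChs m N).X zz c)‖ ^ 2 := by
          rw [← Finset.mul_sum, Finset.sum_comm]
      _ ≤ m * ∑ i : Fin m, η ^ 2 :=
          mul_le_mul_of_nonneg_left (Finset.sum_le_sum fun i _ => t3 i) (Nat.cast_nonneg _)
      _ = m * (m * η ^ 2) := by
          rw [Finset.sum_const, Finset.card_univ, Fintype.card_fin, nsmul_eq_mul]
  calc ∑ c : Fin m → ZMod N, ‖T.ι (S.α g (S.bcell b σ N δ e c)
        - pch p (lamV b N δ c) g • S.bcell b σ N δ e c)‖ ^ 2
      ≤ ∑ c : Fin m → ZMod N, (2 * ‖T.ι (S.α g ((boxChs m N).X zz c)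
            - conj ((boxChs m N).χ c n) • (boxChs m N).X zz c)‖ ^ 2
        + 2 * ‖T.ι ((conj ((boxChs m N).χ c n) - pch p (lamV b N δ c) g)
            • (boxChs m N).X zz c)‖ ^ 2) := by
        refine Finset.sum_le_sum fun c _ => ?_
        rw [hY]
        have e1 : S.α g ((boxChs m N).X zz c) - pch p (lamV b N δ c) g • (boxChs m N).X zz c
            = (S.α g ((boxChs m N).X zz c)
                - conj ((boxChs m N).χ c n) • (boxChs m N).X zz c)
              + (conj ((boxChs m N).χ c n) - pch p (lamV b N δ c) g) • (boxChs m N).X zz c := by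
          rw [sub_smul]
          abel
        rw [e1]
        exact T.norm_add_sq_le _ _
    _ ≤ 2 * η ^ 2 + 2 * (m : ℝ) ^ 2 * η ^ 2 := by
        rw [Finset.sum_add_distrib, ← Finset.mul_sum, ← Finset.mul_sum]
        have e3 : 2 * (m : ℝ) ^ 2 * η ^ 2 = 2 * (m * (m * η ^ 2)) := by ring
        rw [e3]
        linarith

end

section
variable {A : Type u} [CStarAlgebra A] {K : Type v} [NormedAddCommGroup K]
  [InnerProductSpace ℂ K] [CompleteSpace K]
  {G : Type w} [Group G] [TopologicalSpace G] [IsTopologicalGroup G] [T2Space G]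
  [SecondCountableTopology G] [LocallyCompactSpace G] {T : TrAlg A K} (S : TrAct G T) {m : ℕ}

/-- **cells with mesh `2π/M`** for a torus layer: `M` may be any large number -/
theorem TrAct.exists_tcell (N N' : Subgroup G)
    (hN : IsClosed (N : Set G)) (p : G → EuclideanSpace ℝ (Fin m)) (hp : IsTLayer N N' p)
    (σ : EuclideanSpace ℝ (Fin m) → G) (Kc : Set G) (hKc : IsCompact Kc)
    (hKcN : Kc ⊆ (N : Set G)) (hσK : ∀ v, σ v ∈ Kc)
    (hσp : ∀ v, ∀ q : Fin m → ℤ, pch p (zv q) (σ v) = ch ⟪zv q, v⟫)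
    (hσper : ∀ v, ∀ k : Fin m → ℤ, σ (v + (2 * Real.pi) • zv k) = σ v)
    (D : Set G) (hD : IsCompact D) (hDN : D ⊆ (N : Set G)) (κ : ℝ) (hκ : 0 < κ) :
    ∃ (D' : Set G) (κ' : ℝ), IsCompact D' ∧ D' ⊆ (N' : Set G) ∧ 0 < κ' ∧
      ∀ e : A, ‖T.ι e‖ ≤ 1 → (∀ h ∈ D', ‖T.ι (S.α h e - e)‖ ≤ κ') →
        ∃ M0 : ℕ, ∀ (M : ℕ) [NeZero M], M0 ≤ M →
          ∀ g ∈ D, ∑ c : Fin m → ZMod M,
            ‖T.ι (S.α g (S.bcell (EuclideanSpace.basisFun (Fin m) ℝ) σ M (2 * Real.pi / M) e c)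
            - pch p (lamV (EuclideanSpace.basisFun (Fin m) ℝ) M (2 * Real.pi / M) c) g
              • S.bcell (EuclideanSpace.basisFun (Fin m) ℝ) σ M (2 * Real.pi / M) e c)‖ ^ 2
              ≤ κ := by
  have hpi := Real.pi_pos
  obtain ⟨b, hb⟩ : ∃ b : OrthonormalBasis (Fin m) ℝ (EuclideanSpace ℝ (Fin m)),
      b = EuclideanSpace.basisFun (Fin m) ℝ := ⟨_, rfl⟩
  rw [← hb]
  have hσN : ∀ v, σ v ∈ N := fun v => hKcN (hσK v)
  obtain ⟨η, hη⟩ : ∃ η : ℝ, η = Real.sqrt (κ / (2 * ((m : ℝ) ^ 2 + 1))) := ⟨_, rfl⟩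
  have hη0 : 0 < η := by rw [hη]; positivity
  have hη2 : η ^ 2 * (2 * ((m : ℝ) ^ 2 + 1)) = κ := by
    rw [hη, Real.sq_sqrt (by positivity)]
    field_simp
  obtain ⟨K1, hK1, hK1n⟩ := exists_compact_mem_nhds (1 : G)
  obtain ⟨Kb, hKb⟩ : ∃ Kb : Set G, Kb = Kc⁻¹ * D * Kc ∪ K1⁻¹ * (Kc⁻¹ * Kc) := ⟨_, rfl⟩
  have hKbc : IsCompact Kb := by
    rw [hKb]
    exact ((hKc.inv.mul hD).mul hKc).union (hK1.inv.mul (hKc.inv.mul hKc))
  have hN'c : IsClosed (N' : Set G) := hp.isClosed_ker hN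
  refine ⟨Kb ∩ N', η / 4, hKbc.inter_right hN'c, Set.inter_subset_right, by positivity,
    fun e he hinv => ?_⟩
  -- the mesh
  have hUn : {s : G | ‖T.ι (S.α s e - e)‖ < η / 4} ∩ K1 ∈ 𝓝 (1 : G) := by
    refine inter_mem ?_ hK1n
    have hc : Continuous fun s : G => ‖T.ι (S.α s e - e)‖ := by
      simp only [map_sub]
      exact ((S.cont e).sub continuous_const).norm
    refine (hc.tendsto 1).eventually (gt_mem_nhds ?_)
    rw [S.one, sub_self, map_zero, norm_zero]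
    positivity
  obtain ⟨δ1, hδ1, hδ1N⟩ := hp.exists_near hN hUn
  have hmesh : ∀ v v' : EuclideanSpace ℝ (Fin m), ‖v - v'‖ < δ1 →
      ‖T.ι (S.α (σ v) e - S.α (σ v') e)‖ ≤ η / 2 := by
    intro v v' hvv
    obtain ⟨s, hs, ⟨hs1, hs2⟩, hsv⟩ := hδ1N (v - v') hvv
    obtain ⟨h, hh⟩ : ∃ h : G, h = s⁻¹ * ((σ v')⁻¹ * σ v) := ⟨_, rfl⟩
    have hmem : (σ v')⁻¹ * σ v ∈ N := N.mul_mem (N.inv_mem (hσN v')) (hσN v)
    have hhN' : h ∈ N' := by
      rw [hh]
      refine hp.ker_of_eq hs hmem fun q => ?_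
      rw [hsv, hp.mul q _ (N.inv_mem (hσN v')) _ (hσN v), hp.inv q (hσN v'), hσp, hσp, conj_ch,
        ← ch_add, inner_sub_right]
      congr 1
      ring
    have hhK : h ∈ Kb := by
      rw [hKb, hh]
      exact Or.inr (Set.mul_mem_mul (Set.inv_mem_inv.2 hs2)
        (Set.mul_mem_mul (Set.inv_mem_inv.2 (hσK v')) (hσK v)))
    have e1 : σ v = σ v' * (s * h) := by rw [hh]; group
    rw [e1, S.mul, S.mul, ← map_sub, S.norm_map]
    have e2 : S.α s (S.α h e) - e = S.α s (S.α h e - e) + (S.α s e - e) := by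
      rw [map_sub]
      abel
    rw [e2, map_add]
    refine (norm_add_le _ _).trans ?_
    rw [S.norm_map]
    have h3 := hinv h ⟨hhK, hhN'⟩
    have h4 : ‖T.ι (S.α s e - e)‖ < η / 4 := hs1
    linarith
  refine ⟨⌈2 * Real.pi * (m + 1) / δ1⌉₊ + 1, fun M hMz hM0 g hg => ?_⟩
  have hMpos : (0 : ℝ) < M := Nat.cast_pos.2 (Nat.pos_of_ne_zero (NeZero.ne M))
  obtain ⟨δ, hδ⟩ : ∃ δ : ℝ, δ = 2 * Real.pi / M := ⟨_, rfl⟩
  rw [← hδ]
  have hδ0 : 0 < δ := by rw [hδ]; positivity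
  have hMδ : (M : ℝ) * δ = 2 * Real.pi := by rw [hδ]; field_simp
  have hδ2 : (m + 1) * δ < δ1 := by
    have h1 := Nat.le_ceil (2 * Real.pi * (m + 1) / δ1)
    have h2 : ((⌈2 * Real.pi * (m + 1) / δ1⌉₊ + 1 : ℕ) : ℝ) ≤ M := by exact_mod_cast hM0
    push_cast at h2
    have h3 : 2 * Real.pi * (m + 1) / δ1 < M := by linarith
    rw [div_lt_iff₀ hδ1] at h3
    rw [hδ, ← mul_div_assoc, div_lt_iff₀ hMpos]
    linarith
  -- periodicity
  have hper : ∀ j k : Fin m → ℤ, σ (gridV b δ (j + (M : ℤ) • k)) = σ (gridV b δ j) := by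
    intro j k
    have e1 : gridV b δ ((M : ℤ) • k) = (2 * Real.pi) • zv k := by
      unfold gridV zv
      rw [Finset.smul_sum]
      refine Finset.sum_congr rfl fun i _ => ?_
      rw [smul_smul, hb]
      congr 1
      rw [Pi.smul_apply, smul_eq_mul]
      push_cast
      rw [← hMδ]
      ring
    rw [gridV_add, e1, hσper]
  -- the shift
  obtain ⟨n, hn⟩ : ∃ n : Fin m → ℤ, n = fun i => ⌊⟪b i, p g⟫ / δ⌋ := ⟨_, rfl⟩
  have H3 : ∀ i, 0 ≤ ⟪b i, p g⟫ - δ * n i := by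
    intro i
    have h1 := Int.floor_le (⟪b i, p g⟫ / δ)
    rw [le_div_iff₀ hδ0] at h1
    rw [hn]
    change 0 ≤ ⟪b i, p g⟫ - δ * (⌊⟪b i, p g⟫ / δ⌋ : ℝ)
    linarith
  have H4 : ∀ i, ⟪b i, p g⟫ - δ * n i ≤ δ := by
    intro i
    have h1 := Int.lt_floor_add_one (⟪b i, p g⟫ / δ)
    rw [div_lt_iff₀ hδ0] at h1
    rw [hn]
    change ⟪b i, p g⟫ - δ * (⌊⟪b i, p g⟫ / δ⌋ : ℝ) ≤ δ
    linarith
  have hng : ‖p g - gridV b δ n‖ ≤ m * δ := by
    have e1 : p g - gridV b δ n = ∑ i, (⟪b i, p g⟫ - δ * n i) • b i := by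
      have e2 : p g = ∑ i, ⟪b i, p g⟫ • b i := (b.sum_repr' (p g)).symm
      unfold gridV
      conv_lhs => rw [e2]
      rw [← Finset.sum_sub_distrib]
      simp only [sub_smul]
    rw [e1]
    refine (norm_sum_smul_le b _).trans ?_
    calc ∑ i, |⟪b i, p g⟫ - δ * n i| ≤ ∑ i : Fin m, δ :=
          Finset.sum_le_sum fun i _ => by rw [abs_of_nonneg (H3 i)]; exact H4 i
      _ = m * δ := by rw [Finset.sum_const, Finset.card_univ, Fintype.card_fin, nsmul_eq_mul]
  have hm0 : (0 : ℝ) ≤ m := Nat.cast_nonneg _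
  have H1 : ∀ j ∈ boxF m M, ‖T.ι (S.α g (S.α (σ (gridV b δ j)) e)
      - S.α (σ (gridV b δ (j + n))) e)‖ ≤ η := by
    intro j hj
    obtain ⟨v, hv⟩ : ∃ v : EuclideanSpace ℝ (Fin m), v = gridV b δ j := ⟨_, rfl⟩
    have hv2 : ‖v + p g - gridV b δ (j + n)‖ ≤ m * δ := by
      rw [gridV_add, ← hv]
      have e1 : v + p g - (v + gridV b δ n) = p g - gridV b δ n := by abel
      rw [e1]
      exact hng
    have h1 := hmesh (v + p g) (gridV b δ (j + n)) (by linarith)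
    obtain ⟨h, hh⟩ : ∃ h : G, h = (σ (v + p g))⁻¹ * (g * σ v) := ⟨_, rfl⟩
    have hgN : g ∈ N := hDN hg
    have hhN' : h ∈ N' := by
      rw [hh]
      refine hp.ker_of_eq (hσN _) (N.mul_mem hgN (hσN v)) fun q => ?_
      rw [hp.mul q _ hgN _ (hσN v), hσp, hσp]
      unfold pch
      rw [← ch_add, inner_add_right]
      congr 1
      ring
    have hhK : h ∈ Kb := by
      have e0 : h = (σ (v + p g))⁻¹ * g * σ v := by rw [hh]; group
      rw [hKb, e0]
      exact Or.inl (Set.mul_mem_mul (Set.mul_mem_mul (Set.inv_mem_inv.2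
        (hσK _)) hg) (hσK v))
    have e1 : S.α g (S.α (σ v) e) = S.α (σ (v + p g)) (S.α h e) := by
      rw [← S.mul, ← S.mul, hh]
      congr 2
      group
    rw [← hv, e1]
    have e2 : S.α (σ (v + p g)) (S.α h e) - S.α (σ (gridV b δ (j + n))) e
        = S.α (σ (v + p g)) (S.α h e - e)
          + (S.α (σ (v + p g)) e - S.α (σ (gridV b δ (j + n))) e) := by
      rw [map_sub]
      abel
    rw [e2, map_add]
    refine (norm_add_le _ _).trans ?_
    rw [S.norm_map]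
    have h3 := hinv h ⟨hhK, hhN'⟩
    linarith
  have H2 : ∀ j ∈ boxF m M, ∀ i, ‖T.ι (S.α (σ (gridV b δ (j + Pi.single i 1))) e
      - S.α (σ (gridV b δ j)) e)‖ ≤ η := by
    intro j hj i
    have e1 : gridV b δ (Pi.single i 1) = δ • b i := by
      unfold gridV
      rw [Finset.sum_eq_single i]
      · rw [Pi.single_eq_same]
        push_cast
        rw [mul_one]
      · intro i' _ hi'
        rw [Pi.single_eq_of_ne hi']
        simp
      · intro h
        exact absurd (Finset.mem_univ i) h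
    have e2 : ‖gridV b δ (j + Pi.single i 1) - gridV b δ j‖ = δ := by
      rw [gridV_add, add_sub_cancel_left, e1, norm_smul, b.norm_eq_one, mul_one,
        Real.norm_of_nonneg hδ0.le]
    have h2 := hmesh (gridV b δ (j + Pi.single i 1)) (gridV b δ j) (by
      rw [e2]
      nlinarith)
    linarith
  refine (S.bcell_eig_cyc b hδ0 p g n η hper H1 H2 H3 H4).trans ?_
  nlinarith [sq_nonneg η]

end

end Pool.Agent.AbCoc
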