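import Pool.Agent.Lib_MP_418a80_tl.TGlue0
import Pool.Agent.Lib_MP_418a80_t5.ClassE

/-!
# [TL] TGlue: open subgroups `L`, `B` compact normal in `L`, `L / B` with a mixed tower

As `Lib_MP_418a80_con/CGlue.lean`, with torus layers in the tower of `L / B`.
-/

set_option autoImplicit false
set_option linter.unusedVariables false
set_option linter.unusedSectionVars false

open Topology Filter MeasureTheory
open scoped RealInnerProductSpace ComplexConjugate

namespace Pool.Agent.AbCoc

universe u v w z

section top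
variable {G : Type w} [Group G] [TopologicalSpace G] [IsTopologicalGroup G] {L B : Subgroup G}
  [hn : (B.subgroupOf L).Normal] [T2Space G] [SecondCountableTopology G] [LocallyCompactSpace G]

/-- the pulled back tower -/
theorem glue_mtower (hBc : IsCompact (B : Set G)) (hB : B ≤ L)
    (hL : IsClosed (L : Set G)) {R : Subgroup (L ⧸ B.subgroupOf L)} (hT : MTower.{u, v, w} R) :
    (∀ M : Subgroup G, FiNor M (preL L B R) → NTwE.{u, v, w} M) ∧
      CTw.{u, v, w} (preL L B R) := by
  induction hT with
  | bot =>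
    rw [preL_bot hB]
    refine ⟨fun M hM => NTwE.bot M ?_, CTw.bot B hBc⟩
    exact hBc.of_isClosed_subset hM.closed hM.le
  | vec N N' m p hN hp hK h ih =>
    have hT' : MTower.{u, v, w} N := MTower.vec N N' m p hN hp hK h
    have hp' := hp.pre (B := B)
    have hNc := preL_closed (B := B) hL hN
    have hc' : IsClosed (preL L B N' : Set G) := hp'.isClosed_ker hNc
    have hkey : ∀ M : Subgroup G, FiNor M (preL L B N) → KeyAll.{u, v, w} M :=
      fun M hM => keyAll_of_meet hBc hB hL hN hK M hM (hT'.fin_mul hB hL M hM)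
    have hn1 : ∀ M : Subgroup G, FiNor M (preL L B N) → NTwE.{u, v, w} M := by
      intro M hM
      refine NTwE.step M (M ⊓ preL L B N') inf_le_left ?_ (ih.1 _ (hM.inf hp'.le hc'))
      exact NDescEAll.of_layer hM.closed (hM.layer hp') (hkey M hM)
    refine ⟨hn1, CTw.step _ _ hp'.le ?_ ih.2⟩
    exact CDescAll.of_layer hNc hp' (hkey _ (FiNor.refl_c hNc))
      (StarAll.of hkey fun M hM => (hn1 M hM).nTw)
  | tor N N' m p hN hp hK h ih =>
    have hT' : MTower.{u, v, w} N := MTower.tor N N' m p hN hp hK h
    have hp' := hp.pre (B := B)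
    have hNc := preL_closed (B := B) hL hN
    have hc' : IsClosed (preL L B N' : Set G) := hp'.isClosed_ker hNc
    have hkey : ∀ M : Subgroup G, FiNor M (preL L B N) → KeyAll.{u, v, w} M :=
      fun M hM => keyAll_of_meet hBc hB hL hN hK M hM (hT'.fin_mul hB hL M hM)
    have hn1 : ∀ M : Subgroup G, FiNor M (preL L B N) → NTwE.{u, v, w} M := by
      intro M hM
      have h2 := ih.1 _ (hM.inf hp'.le hc')
      refine NTwE.step M (M ⊓ preL L B N') inf_le_left ?_ h2
      exact NDescEAll.of_tlayer hM.closed (hM.tlayer hp') (hkey M hM) h2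
    refine ⟨hn1, CTw.step _ _ hp'.le ?_ ih.2⟩
    exact CDescAll.of_tlayer hNc hp' (hkey _ (FiNor.refl_c hNc)) (StarEAll.of hkey hn1)

/-- **open subgroups `L` with a compact normal subgroup `B` such that `L / B` has a mixed tower** -/
theorem keyAll_of_open_compact_mixed (hL : IsOpen (L : Set G)) (hBc : IsCompact (B : Set G))
    (hB : B ≤ L) (hne : B ≠ L)
    (hT : MTower.{u, v, w} (⊤ : Subgroup (L ⧸ B.subgroupOf L))) : KeyAll.{u, v, w} G := by
  have hLc : IsClosed (L : Set G) := L.isClosed_of_isOpen hL
  have hBL : IsClosed ((B.subgroupOf L : Subgroup L) : Set L) :=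
    hBc.isClosed.preimage continuous_subtype_val
  have : LocallyCompactSpace L := hLc.isClosedEmbedding_subtypeVal.locallyCompactSpace
  have : SecondCountableTopology L :=
    inferInstanceAs (SecondCountableTopology ((L : Set G) : Set G))
  have : T3Space (L ⧸ B.subgroupOf L) := inferInstance
  have : SecondCountableTopology (L ⧸ B.subgroupOf L) := inferInstance
  obtain ⟨h1, h2⟩ := glue_mtower hBc hB hLc hT
  rw [preL_top] at h1 h2
  have hntop : (⊤ : Subgroup (L ⧸ B.subgroupOf L)) ≠ ⊥ := by
    intro h
    have h3 := congrArg (preL L B) h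
    rw [preL_top, preL_bot hB] at h3
    exact hne h3.symm
  have hTc : IsClosed ((⊤ : Subgroup (L ⧸ B.subgroupOf L)) : Set (L ⧸ B.subgroupOf L)) := by
    rw [Subgroup.coe_top]
    exact isClosed_univ
  have hK : KeyAll.{u, v, w} (⊤ : Subgroup (L ⧸ B.subgroupOf L)) := hT.keyAll hntop
  have hkey : ∀ M : Subgroup G, FiNor M L → KeyAll.{u, v, w} M := by
    intro M hM
    have hM' : FiNor M (preL L B ⊤) := by
      rw [preL_top]
      exact hM
    exact keyAll_of_meet hBc hB hLc hTc hK M hM' (hT.fin_mul hB hLc M hM')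
  refine keyAll_of_commensurated L hL (hkey L (FiNor.refl_c hLc))
    (StarAll.of hkey fun M hM => (h1 M hM).nTw) h2 (exists_cms_of hBc hB hL fun U hU s hs => ?_)
  refine hT.open_mul hB hLc U hU s ?_
  rw [preL_top]
  exact hs

end top

end Pool.Agent.AbCoc
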