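import Pool.Agent.Lib_MP_418a80_tl.TDefs2

/-!
# [TL] THull: the hull lemma with eigenvectors
-/

set_option autoImplicit false
set_option linter.unusedVariables false
set_option linter.unusedSectionVars false

open Topology Filter MeasureTheory
open scoped RealInnerProductSpace ComplexConjugate

namespace Pool.Agent.AbCoc

universe u v w z

section
variable {A : Type u} [CStarAlgebra A] {K : Type v} [NormedAddCommGroup K]
  [InnerProductSpace ℂ K] [CompleteSpace K]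
  {G : Type w} [Group G] [TopologicalSpace G] [IsTopologicalGroup G] {T : TrAlg A K}
  (S : TrAct G T)

theorem TrAct.IsNU.near_hull_eig {S : TrAct G T} {D : Set G} {κ : ℝ} {u : A}
    (hu : S.IsNU D κ u) (k h : G) (a : A) (c : ℂ) (ha : S.α h a = c • a) (h1 : h ∈ D)
    (h2 : k⁻¹ * h * k ∈ D) :
    ‖T.ι (S.α h (u * a * S.α k (Star.star u)) - c • (u * a * S.α k (Star.star u)))‖
      ≤ 2 * κ * (‖c‖ * ‖a‖) := by
  have e : S.α h (u * a * S.α k (Star.star u)) - c • (u * a * S.α k (Star.star u))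
      = (S.α h u - u) * ((c • a) * S.α h (S.α k (Star.star u)))
        + (u * (c • a)) * (S.α k (S.α (k⁻¹ * h * k) (Star.star u) - Star.star u)) := by
    have e1 : S.α k (S.α (k⁻¹ * h * k) (Star.star u)) = S.α h (S.α k (Star.star u)) := by
      rw [← S.mul, ← S.mul]
      congr 2
      group
    have e3 : c • (u * a * S.α k (Star.star u)) = u * (c • a) * S.α k (Star.star u) := by
      rw [mul_smul_comm, smul_mul_assoc]
    rw [map_sub, e1, map_mul, map_mul, ha, e3, sub_mul, mul_sub]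
    simp only [mul_assoc]
    abel
  have hca : ‖c • a‖ = ‖c‖ * ‖a‖ := norm_smul c a
  have hκ : 0 ≤ κ := (norm_nonneg _).trans (hu.near h h1)
  rw [e, map_add]
  have e2 : 2 * κ * (‖c‖ * ‖a‖) = κ * (‖c‖ * ‖a‖) + (‖c‖ * ‖a‖) * κ := by ring
  rw [e2, ← hca]
  refine (norm_add_le _ _).trans (add_le_add ?_ ?_)
  · refine (T.mul_le' _ _).trans ?_
    have h3 : ‖(c • a) * S.α h (S.α k (Star.star u))‖ ≤ ‖c • a‖ := by
      refine (norm_mul_le _ _).trans ?_
      have h4 : ‖S.α h (S.α k (Star.star u))‖ ≤ 1 :=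
        (S.norm_le _ _).trans ((S.norm_le _ _).trans hu.norm_star_le)
      calc ‖c • a‖ * ‖S.α h (S.α k (Star.star u))‖ ≤ ‖c • a‖ * 1 := by gcongr
        _ = ‖c • a‖ := mul_one _
    exact mul_le_mul (hu.near h h1) h3 (norm_nonneg _) hκ
  · refine (T.mul_le _ _).trans ?_
    rw [S.norm_map]
    have h3 : ‖u * (c • a)‖ ≤ ‖c • a‖ := by
      refine (norm_mul_le _ _).trans ?_
      calc ‖u‖ * ‖c • a‖ ≤ 1 * ‖c • a‖ := mul_le_mul_of_nonneg_right hu.norm_le (norm_nonneg _)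
        _ = ‖c • a‖ := one_mul _
    exact mul_le_mul h3 (hu.star.near _ h2) (norm_nonneg _) (norm_nonneg _)

/-- the hull lemma: the limit `z_j` is an eigenvector of every `h ∈ H` with `k_j⁻¹ h k_j ∈ H` of
which `a_j` is one, with the same eigenvalue -/
theorem TrAct.on_center_eig (H : Subgroup G) {F : Type} [Fintype F] (a : F → A) (k : F → G) :
    ∃ z : F → A, (∀ j, ‖T.ι (z j)‖ ≤ ‖a j‖) ∧
      (∀ j, ∀ h ∈ H, (k j)⁻¹ * h * k j ∈ H → ∀ c : ℂ, S.α h (a j) = c • a j →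
        S.α h (z j) = c • z j) ∧
      (∀ D : Set G, IsCompact D → D ⊆ (H : Set G) → ∀ κ : ℝ, 0 < κ → ∀ ε : ℝ, 0 < ε →
        ∃ (I : Type) (_ : Fintype I) (u : I → A) (l : I → ℝ), (∀ i, S.IsNU D κ (u i)) ∧
          (∀ i, 0 ≤ l i) ∧ ∑ i, l i = 1 ∧
          ∀ j, ‖T.ι (∑ i, (l i : ℂ) • (u i * a j * S.α (k j) (star (u i))) - z j)‖ ≤ ε) ∧
      ∀ ε : ℝ, 0 < ε → ∃ (D : Set G) (κ : ℝ), IsCompact D ∧ D ⊆ (H : Set G) ∧ 0 < κ ∧
        ∀ u : A, S.IsNU D κ u → ∀ j, ‖T.ι (u * z j * S.α (k j) (star u) - z j)‖ ≤ ε := by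
  obtain ⟨z, hz1, -, hz3, hz4⟩ := S.on_center_pt H a k
  refine ⟨z, hz1, fun j h hh hkH c haj => ?_, hz3, hz4⟩
  have key : ∀ ε : ℝ, 0 < ε →
      ‖T.ι (S.α h (z j) - c • z j)‖ ≤ ε * (1 + ‖c‖ + 2 * (‖c‖ * ‖a j‖)) := by
    intro ε hε
    obtain ⟨I, _, u, l, hu, h0, h1, hx⟩ := hz3 {h, (k j)⁻¹ * h * k j}
      (Set.Finite.isCompact (by simp)) (by
        rintro _ (rfl | rfl)
        · exact hh
        · exact hkH) ε hε ε hε
    obtain ⟨b, hb⟩ : ∃ b : A, b = ∑ i, (l i : ℂ) • (u i * a j * S.α (k j) (star (u i))) :=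
      ⟨_, rfl⟩
    have h2 : ‖T.ι (b - z j)‖ ≤ ε := by rw [hb]; exact hx j
    have h3 : ‖T.ι (S.α h b - c • b)‖ ≤ 2 * ε * (‖c‖ * ‖a j‖) := by
      have e : S.α h b - c • b
          = ∑ i, (l i : ℂ) • (S.α h (u i * a j * S.α (k j) (star (u i)))
            - c • (u i * a j * S.α (k j) (star (u i)))) := by
        rw [hb, map_sum, Finset.smul_sum, ← Finset.sum_sub_distrib]
        refine Finset.sum_congr rfl fun i _ => ?_
        rw [map_smul, smul_sub, smul_comm c]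
      rw [e, map_sum]
      simp only [map_smul]
      exact norm_conv_le l h0 h1 _ _ fun i =>
        (hu i).near_hull_eig (k j) h (a j) c haj (by simp) (by simp)
    have e2 : S.α h (z j) - c • z j = S.α h (z j - b) + (S.α h b - c • b) + c • (b - z j) := by
      rw [map_sub, smul_sub]; abel
    rw [e2, map_add, map_add]
    have h4 : ‖T.ι (S.α h (z j - b))‖ ≤ ε := by
      rw [S.norm_map, ← neg_sub, map_neg, norm_neg]
      exact h2
    have h5 : ‖T.ι (c • (b - z j))‖ ≤ ‖c‖ * ε := by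
      rw [map_smul, norm_smul]
      exact mul_le_mul_of_nonneg_left h2 (norm_nonneg _)
    calc _ ≤ ‖T.ι (S.α h (z j - b))‖ + ‖T.ι (S.α h b - c • b)‖ + ‖T.ι (c • (b - z j))‖ :=
          norm_add₃_le
      _ ≤ ε + 2 * ε * (‖c‖ * ‖a j‖) + ‖c‖ * ε := by gcongr
      _ = _ := by ring
  have h0 : ‖T.ι (S.α h (z j) - c • z j)‖ ≤ 0 := by
    refine le_of_forall_pos_le_add fun ε hε => ?_
    have hp : 0 < 1 + ‖c‖ + 2 * (‖c‖ * ‖a j‖) := by positivity
    have := key (ε / (1 + ‖c‖ + 2 * (‖c‖ * ‖a j‖))) (by positivity)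
    rw [div_mul_cancel₀ _ hp.ne'] at this
    linarith
  have h1 : T.ι (S.α h (z j) - c • z j) = T.ι 0 := by
    rw [map_zero]
    exact norm_le_zero_iff.1 h0
  exact sub_eq_zero.1 (T.inj h1)

end

end Pool.Agent.AbCoc
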